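import Mathlib
import Pool.Agent.W528.Odd.Core2
import Pool.Agent.Y91.JP.Abs

/-!
# Lie algebras of symplectic operators in which the weak Hodge elements act irreducibly
-/

set_option linter.unusedSectionVars false

namespace Pool.Agent.Y126.JP

open Module LinearMap Pool.Agent.W548.Odd Pool.Agent.Y91.JP

noncomputable section

variable {K : Type} [Field K] [CharZero K] {V : Type} [AddCommGroup V] [Module K V]
  [FiniteDimensional K V] {ω : V →ₗ[K] V →ₗ[K] K}

/-- The isomorphism `w ↦ ω · w` with the dual space. -/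
def psi (ω : V →ₗ[K] V →ₗ[K] K) (hnd : ∀ w, (∀ v, ω v w = 0) → w = 0) : V ≃ₗ[K] Dual K V :=
  LinearEquiv.ofInjectiveOfFinrankEq ω.flip (by
    rw [← LinearMap.ker_eq_bot, LinearMap.ker_eq_bot']
    intro w hw
    exact hnd w fun v => by rw [← LinearMap.flip_apply, hw]; rfl)
    (Subspace.dual_finrank_eq).symm

theorem psi_apply (hnd : ∀ w, (∀ v, ω v w = 0) → w = 0) (v w : V) :
    psi ω hnd w v = ω v w := rfl

/-- The adjoint. -/
def adj (ω : V →ₗ[K] V →ₗ[K] K) (hnd : ∀ w, (∀ v, ω v w = 0) → w = 0) :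
    End K V →ₗ[K] End K V :=
  ((psi ω hnd).symm.conj : End K (Dual K V) →ₗ[K] End K V).comp Module.Dual.transpose

theorem adj_eq (hnd : ∀ w, (∀ v, ω v w = 0) → w = 0) (x : End K V) (w : V) :
    adj ω hnd x w = (psi ω hnd).symm (Module.Dual.transpose (R := K) x (psi ω hnd w)) := rfl

theorem adj_spec (hnd : ∀ w, (∀ v, ω v w = 0) → w = 0) (x : End K V) (v w : V) :
    ω (x v) w = ω v (adj ω hnd x w) := by
  rw [← psi_apply hnd v, adj_eq, LinearEquiv.apply_symm_apply]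
  rfl

theorem adj_unique (hnd : ∀ w, (∀ v, ω v w = 0) → w = 0) {x y : End K V}
    (h : ∀ v w, ω (x v) w = ω v (y w)) : adj ω hnd x = y := by
  refine LinearMap.ext fun w => ?_
  rw [← sub_eq_zero]
  refine hnd _ fun v => ?_
  rw [map_sub, ← adj_spec, h, sub_self]

theorem adj_trace (hnd : ∀ w, (∀ v, ω v w = 0) → w = 0) : TrSt (adj ω hnd) := by
  intro x
  change trace K V ((psi ω hnd).symm.conj (Module.Dual.transpose (R := K) x)) = _
  rw [LinearMap.trace_conj', LinearMap.trace_transpose']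

theorem adj_rk (hnd : ∀ w, (∀ v, ω v w = 0) → w = 0) (x : End K V) :
    rk (adj ω hnd x) = rk x := by
  unfold rk
  have h1 : adj ω hnd x = ((psi ω hnd).symm.toLinearMap ∘ₗ
      (x.dualMap ∘ₗ (psi ω hnd).toLinearMap) : V →ₗ[K] V) := rfl
  rw [h1, LinearMap.range_comp, LinearEquiv.finrank_map_eq (psi ω hnd).symm,
    LinearMap.range_comp, LinearEquiv.range, Submodule.map_top,
    LinearMap.finrank_range_dualMap_eq_finrank_range]

theorem altF_adj (halt : ∀ v, ω v v = 0) (hnd : ∀ w, (∀ v, ω v w = 0) → w = 0) :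
    AltF (adj ω hnd) ω := by
  refine ⟨fun x v w => adj_spec hnd x v w, fun v w => ?_, hnd⟩
  have h := halt (v + w)
  rw [map_add, map_add ω, LinearMap.add_apply, LinearMap.add_apply, halt, halt, zero_add,
    add_zero] at h
  exact eq_neg_of_add_eq_zero_right h

variable {𝔥 : Submodule K (End K V)}

/-- The Lie algebra generated by the weak Hodge elements. -/
def gw (𝔥 : Submodule K (End K V)) : Submodule K (End K V) :=
  sInf {L | (∀ X ∈ 𝔥, X * X = (1 / 4 : K) • 1 → X ∈ L) ∧ ∀ y ∈ L, ∀ z ∈ L, y * z - z * y ∈ L}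

theorem gw_le_of {L : Submodule K (End K V)} (h1 : ∀ X ∈ 𝔥, X * X = (1 / 4 : K) • 1 → X ∈ L)
    (h2 : ∀ y ∈ L, ∀ z ∈ L, y * z - z * y ∈ L) : gw 𝔥 ≤ L := sInf_le ⟨h1, h2⟩

theorem mem_gw {X : End K V} (hX : X ∈ 𝔥) (hX2 : X * X = (1 / 4 : K) • 1) : X ∈ gw 𝔥 := by
  unfold gw
  rw [Submodule.mem_sInf]
  exact fun L hL => hL.1 X hX hX2

theorem gw_br {y z : End K V} (hy : y ∈ gw 𝔥) (hz : z ∈ gw 𝔥) : y * z - z * y ∈ gw 𝔥 := by
  unfold gw at *
  rw [Submodule.mem_sInf] at *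
  exact fun L hL => hL.2 y (hy L hL) z (hz L hL)

variable (hbr : ∀ X ∈ 𝔥, ∀ Y ∈ 𝔥, X * Y - Y * X ∈ 𝔥)
  (hsp : ∀ y ∈ 𝔥, ∀ a b, ω (y a) b + ω a (y b) = 0)
  (hirr : ∀ W : Submodule K V, (∀ X ∈ 𝔥, X * X = (1 / 4 : K) • 1 → ∀ u ∈ W, X u ∈ W) →
    W = ⊥ ∨ W = ⊤)

include hbr in
theorem gw_le : gw 𝔥 ≤ 𝔥 := gw_le_of (fun _ hX _ => hX) hbr

include hbr in
/-- The commutators with weak Hodge elements. -/
theorem gw_adX {X y : End K V} (hX : X ∈ 𝔥) (hX2 : X * X = (1 / 4 : K) • 1) (hy : y ∈ 𝔥) :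
    X * y - y * X ∈ gw 𝔥 := by
  obtain ⟨p, hpX⟩ : ∃ p, p = X + (1 / 2 : K) • (1 : Module.End K V) := ⟨_, rfl⟩
  have hpp : p * p = p := by rw [hpX]; exact Pool.Agent.W528.Odd.idem_of hX2
  have hXp : X = p - (1 / 2 : K) • 1 := by rw [hpX]; abel
  have h1 := Pool.Agent.W528.Odd.comp_up hbr hX hpX hpp hy
  have h2 := Pool.Agent.W528.Odd.comp_down hbr hX hpX hpp hy
  obtain ⟨u, hu⟩ : ∃ u, u = p * y * (1 - p) := ⟨_, rfl⟩
  obtain ⟨d, hd⟩ : ∃ d, d = (1 - p) * y * p := ⟨_, rfl⟩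
  rw [← hu] at h1
  rw [← hd] at h2
  have hpu : p * u = u := by rw [hu, ← mul_assoc, ← mul_assoc, hpp]
  have hup : u * p = 0 := by
    rw [hu, mul_assoc, sub_mul, one_mul, hpp, sub_self, mul_zero]
  have hpd : p * d = 0 := by
    rw [hd, ← mul_assoc, ← mul_assoc, mul_sub, mul_one, hpp, sub_self, zero_mul, zero_mul]
  have hdp : d * p = d := by rw [hd, mul_assoc, hpp]
  have huu : u * u = 0 := by
    calc u * u = (u * p) * u := by rw [mul_assoc, hpu]
    _ = 0 := by rw [hup, zero_mul]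
  have hdd : d * d = 0 := by
    calc d * d = d * (p * d) := by rw [← mul_assoc, hdp]
    _ = 0 := by rw [hpd, mul_zero]
  have k1 : (X - u) * (X - u) = (1 / 4 : K) • 1 := by
    have e1 : X * u + u * X = 0 := by
      rw [hXp, sub_mul, mul_sub, hpu, hup, smul_mul_assoc, mul_smul_comm, one_mul, mul_one]
      module
    have e2 : (X - u) * (X - u) = X * X - (X * u + u * X) + u * u := by noncomm_ring
    rw [e2, e1, hX2, huu, sub_zero, add_zero]
  have k2 : (X - d) * (X - d) = (1 / 4 : K) • 1 := by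
    have e1 : X * d + d * X = 0 := by
      rw [hXp, sub_mul, mul_sub, hpd, hdp, smul_mul_assoc, mul_smul_comm, one_mul, mul_one]
      module
    have e2 : (X - d) * (X - d) = X * X - (X * d + d * X) + d * d := by noncomm_ring
    rw [e2, e1, hX2, hdd, sub_zero, add_zero]
  have hXg := mem_gw hX hX2
  have m1 : u ∈ gw 𝔥 := by
    have h3 := (gw 𝔥).sub_mem hXg (mem_gw (𝔥.sub_mem hX h1.1) k1)
    rwa [sub_sub_cancel] at h3
  have m2 : d ∈ gw 𝔥 := by
    have h3 := (gw 𝔥).sub_mem hXg (mem_gw (𝔥.sub_mem hX h2.1) k2)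
    rwa [sub_sub_cancel] at h3
  have h4 : X * y - y * X = u - d := by
    rw [hXp, hu, hd, sub_mul, mul_sub, smul_mul_assoc, mul_smul_comm, one_mul, mul_one]
    noncomm_ring
  rw [h4]
  exact (gw 𝔥).sub_mem m1 m2

include hbr in
theorem gw_ideal {x y : End K V} (hx : x ∈ gw 𝔥) (hy : y ∈ 𝔥) : x * y - y * x ∈ gw 𝔥 := by
  let L : Submodule K (End K V) :=
    { carrier := {x | x ∈ gw 𝔥 ∧ ∀ y ∈ 𝔥, x * y - y * x ∈ gw 𝔥}
      zero_mem' := ⟨(gw 𝔥).zero_mem, fun y _ => by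
        rw [zero_mul, mul_zero, sub_zero]; exact (gw 𝔥).zero_mem⟩
      add_mem' := fun {a b} ha hb => ⟨(gw 𝔥).add_mem ha.1 hb.1, fun y hy => by
        have h : (a + b) * y - y * (a + b) = (a * y - y * a) + (b * y - y * b) := by noncomm_ring
        rw [h]
        exact (gw 𝔥).add_mem (ha.2 y hy) (hb.2 y hy)⟩
      smul_mem' := fun c a ha => ⟨(gw 𝔥).smul_mem c ha.1, fun y hy => by
        rw [smul_mul_assoc, mul_smul_comm, ← smul_sub]
        exact (gw 𝔥).smul_mem c (ha.2 y hy)⟩ }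
  have hL : gw 𝔥 ≤ L := by
    refine gw_le_of (fun X hX hX2 => ⟨mem_gw hX hX2, fun y hy => gw_adX hbr hX hX2 hy⟩) ?_
    rintro a ⟨ha, ha'⟩ b ⟨hb, hb'⟩
    refine ⟨gw_br ha hb, fun y hy => ?_⟩
    have h : (a * b - b * a) * y - y * (a * b - b * a) =
        (a * (b * y - y * b) - (b * y - y * b) * a) -
          (b * (a * y - y * a) - (a * y - y * a) * b) := by noncomm_ring
    rw [h]
    exact (gw 𝔥).sub_mem (gw_br ha (hb' y hy)) (gw_br hb (ha' y hy))
  exact (hL hx).2 y hy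

include hbr hsp hirr in
theorem gw_qp : Pool.Agent.W528.Odd.QP ω (gw 𝔥) := by
  have hbr' : ∀ X ∈ gw 𝔥, ∀ Y ∈ gw 𝔥, X * Y - Y * X ∈ gw 𝔥 := fun _ h _ h' => gw_br h h'
  have h := Pool.Agent.W528.Odd.qp_span (ω := ω) hbr' (fun y hy => hsp y (gw_le hbr hy))
    (fun W hW => hirr W fun X hX hX2 => hW X (mem_gw hX hX2) hX2)
  have h1 : Submodule.span K (Pool.Agent.W528.Odd.gens (gw 𝔥)) = gw 𝔥 := by
    refine le_antisymm Pool.Agent.W528.Odd.gens_le (gw_le_of (fun X hX hX2 => ?_) h.br)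
    exact Submodule.subset_span (Or.inr ⟨mem_gw hX hX2, hX2⟩)
  rw [← h1]
  exact h

theorem scal_of_irr [IsAlgClosed K] {G : Submodule K (End K V)}
    (h : ∀ W : Submodule K V, (∀ y ∈ G, ∀ w ∈ W, y w ∈ W) → W = ⊥ ∨ W = ⊤) : Scal G := by
  intro c hc
  rcases subsingleton_or_nontrivial V with hV | hV
  · exact ⟨0, LinearMap.ext fun v => Subsingleton.elim _ _⟩
  obtain ⟨s, hs⟩ := Module.End.exists_eigenvalue c
  refine ⟨s, ?_⟩
  rcases h (c.eigenspace s) (fun y hy w hw => by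
    rw [Module.End.mem_eigenspace_iff] at hw ⊢
    rw [← Module.End.mul_apply, hc y hy, Module.End.mul_apply, hw, map_smul]) with h1 | h1
  · exact absurd h1 hs
  · refine LinearMap.ext fun v => ?_
    have h2 : v ∈ c.eigenspace s := by rw [h1]; trivial
    rw [Module.End.mem_eigenspace_iff] at h2
    rw [h2]
    rfl

include hirr in
theorem gw_irr (W : Submodule K V) (hW : ∀ y ∈ gw 𝔥, ∀ w ∈ W, y w ∈ W) : W = ⊥ ∨ W = ⊤ :=
  hirr W fun _ hX hX2 => hW _ (mem_gw hX hX2)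

variable (halt : ∀ v, ω v v = 0) (hndl : ∀ u, (∀ v, ω u v = 0) → u = 0)
  (hndr : ∀ w, (∀ v, ω v w = 0) → w = 0)

include hbr hsp hirr hndl in
theorem gw_nondeg [IsAlgClosed K] {y : End K V} (hy : y ∈ gw 𝔥)
    (h : ∀ z ∈ gw 𝔥, trace K V (y * z) = 0) : y = 0 := by
  have hQ := gw_qp hbr hsp hirr
  have h1 := Pool.Agent.W528.Odd.inf_orth hndl hQ le_rfl hQ.br
  have h2 : y ∈ gw 𝔥 ⊓ Pool.Agent.W528.Odd.orth (gw 𝔥) (gw 𝔥) := ⟨hy, hy, h⟩
  rw [h1, Submodule.mem_bot] at h2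
  exact h2

include hbr hsp hirr hndl hndr in
/-- The weak Hodge elements generate the Lie algebra. -/
theorem gw_eq [IsAlgClosed K] : gw 𝔥 = 𝔥 := by
  refine le_antisymm (gw_le hbr) fun y hy => ?_
  have hnd : ∀ c ∈ gw 𝔥, (∀ z ∈ gw 𝔥, trace K V (c * z) = 0) → c = 0 := fun c hc h =>
    gw_nondeg hbr hsp hirr hndl hc h
  obtain ⟨a, ha, haz⟩ := exists_repr hnd ((LinearMap.trace K V).comp (LinearMap.mulLeft K y))
  have haz' : ∀ z ∈ gw 𝔥, trace K V ((y - a) * z) = 0 := by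
    intro z hz
    rw [sub_mul, map_sub, ← haz z hz]
    exact sub_self _
  have hya : y - a ∈ 𝔥 := 𝔥.sub_mem hy (gw_le hbr ha)
  have hcomm : ∀ z ∈ gw 𝔥, (y - a) * z = z * (y - a) := by
    intro z hz
    rw [← sub_eq_zero, ← neg_eq_zero, neg_sub]
    refine hnd _ (gw_ideal hbr hz hya) fun z' hz' => ?_
    have e1 := haz' _ (gw_br hz hz')
    have e3 : trace K V (z * (y - a) * z') = trace K V ((y - a) * z' * z) := by
      rw [mul_assoc, LinearMap.trace_mul_comm]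
    have e4 : (z * (y - a) - (y - a) * z) * z' = z * (y - a) * z' - (y - a) * z * z' := by
      noncomm_ring
    have e5 : (y - a) * (z * z' - z' * z) = (y - a) * z * z' - (y - a) * z' * z := by
      noncomm_ring
    rw [e4, map_sub, e3, ← map_sub, ← neg_eq_zero, ← map_neg, neg_sub, ← e5, e1]
  obtain ⟨s, hs⟩ := scal_of_irr (fun W hW => gw_irr hirr W hW) _ hcomm
  have h0 : y - a = 0 := by
    refine LinearMap.ext fun v => hndr _ fun w => ?_
    have h1 := hsp _ hya w v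
    rw [hs, LinearMap.smul_apply, LinearMap.smul_apply, End.one_apply, End.one_apply, map_smul,
      LinearMap.smul_apply, map_smul, ← two_smul K] at h1
    rw [hs, LinearMap.smul_apply, End.one_apply, map_smul]
    exact (smul_eq_zero.1 h1).resolve_left two_ne_zero
  rw [sub_eq_zero.1 h0]
  exact ha

include hbr hsp hirr hndl hndr in
/-- The setting. -/
theorem setup [IsAlgClosed K] : Pool.Agent.W548.Odd.Setup 𝔥 (adj ω hndr) := by
  have hg := gw_eq hbr hsp hirr hndl hndr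
  refine ⟨hbr, fun a b => ?_, adj_rk hndr, fun y hy => ?_, fun y hy h => ?_, fun L h1 h2 => ?_,
    fun M hM => ?_⟩
  · refine adj_unique hndr fun v w => ?_
    rw [Module.End.mul_apply, adj_spec hndr a, adj_spec hndr b, Module.End.mul_apply]
  · refine adj_unique hndr fun v w => ?_
    rw [LinearMap.neg_apply, map_neg]
    exact eq_neg_of_add_eq_zero_left (hsp y hy v w)
  · rw [← hg] at hy h
    exact gw_nondeg hbr hsp hirr hndl hy h
  · rw [← hg]
    refine gw_le_of (fun X hX hX2 => ?_) h2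
    have h3 : (2 : K) • X ∈ L := by
      refine h1 _ (𝔥.smul_mem _ hX) ?_
      rw [smul_mul_assoc, mul_smul_comm, hX2, smul_smul, smul_smul]
      norm_num
    exact (Submodule.smul_mem_iff _ (two_ne_zero (α := K))).1 h3
  · rcases hirr M (fun X hX _ => hM X hX) with h | h
    · refine ⟨0, fun y _ => by rw [zero_mul, mul_zero], fun w => M.zero_mem, ?_⟩
      intro w hw
      rw [h, Submodule.mem_bot] at hw
      rw [hw, map_zero]
    · exact ⟨1, fun y _ => by rw [one_mul, mul_one], fun w => by rw [h]; trivial, fun w _ => rfl⟩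

include hirr in
theorem scal [IsAlgClosed K] : Scal 𝔥 :=
  scal_of_irr fun W hW => hirr W fun X hX _ => hW X hX

end

end Pool.Agent.Y126.JP
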