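import Mathlib
import Pool.Agent.Y126.JP.Setup
import Pool.Agent.Y126.OT.Pair2

/-!
# Tensor decompositions and multiplicities of eigenvalues
-/

set_option linter.unusedSectionVars false

namespace Pool.Agent.Y126.JP

open Module LinearMap Pool.Agent.W548.Odd Pool.Agent.Y91.JP

noncomputable section

variable {K : Type} [Field K] [CharZero K] {V : Type} [AddCommGroup V] [Module K V]
  [FiniteDimensional K V] {G I : Submodule K (End K V)} {st : End K V →ₗ[K] End K V}
  (h : Pool.Agent.W548.Odd.Setup G st) (hs : Scal G)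

include h hs in
/-- A square-zero element that does not commute with an element of an ideal lies in the ideal, if the
ideal contains an involution with which it does not commute. -/
theorem sq_mem (hI : IsIdl G I) {E N : End K V} (hE : E ∈ I) (hE2 : E * E = 1) (hN : N ∈ G)
    (hN2 : N * N = 0) (hEN : E * N ≠ N * E) : N ∈ I := by
  have hEG := hI.le hE
  obtain ⟨a, ha, b, hb, hab⟩ := idl_decomp h hs hEG hE2 hI hN
  have hba : b * a = a * b := hb.2 a ha
  have hbE : b * E = E * b := hb.2 E hE
  by_cases hb0 : b = 0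
  · rw [hab, hb0, add_zero]
    exact ha
  exfalso
  have h1 : ∃ y ∈ cen G I, b * y - y * b ≠ 0 := by
    by_contra hcon
    push Not at hcon
    exact hb0 (zero_of_comm h hs hEG hE2 hI hb.1 hb.2 fun z hz => sub_eq_zero.1 (hcon z hz))
  obtain ⟨y, hy, hy0⟩ := h1
  have hya : y * a = a * y := hy.2 a ha
  have hyE : y * E = E * y := hy.2 E hE
  have haE : a * E - E * a ≠ 0 := by
    intro h0
    apply hEN
    rw [hab, mul_add, add_mul, hbE, sub_eq_zero.1 h0]
  have e0 : a * a + (2 : K) • (a * b) + b * b = 0 := by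
    have : (a + b) * (a + b) = a * a + (a * b + b * a) + b * b := by noncomm_ring
    rw [hab, this, hba, ← two_smul K] at hN2
    exact hN2
  -- commutator with `E`
  have e1 : (a * a * E - E * (a * a)) + (2 : K) • ((a * E - E * a) * b) = 0 := by
    have t1 : (a * a + (2 : K) • (a * b) + b * b) * E - E * (a * a + (2 : K) • (a * b) + b * b) =
        (a * a * E - E * (a * a)) + (2 : K) • (a * (b * E) - E * a * b) +
          (b * (b * E) - (E * b) * b) := by
      rw [add_mul, add_mul, mul_add, mul_add, smul_mul_assoc, mul_smul_comm, smul_sub]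
      simp only [mul_assoc]
      abel
    have t2 : b * (b * E) - (E * b) * b = 0 := by
      rw [hbE, ← mul_assoc, hbE, sub_self]
    have t3 : a * (b * E) - E * a * b = (a * E - E * a) * b := by
      rw [hbE]
      noncomm_ring
    rw [e0, zero_mul, mul_zero, sub_self, t2, t3, add_zero] at t1
    exact t1.symm
  -- commutator with `y`
  have hv : b * y - y * b ∈ cen G I := (cen_idl h hI).br' hb hy.1
  have hu : a * E - E * a ∈ I := hI.br' ha hEG
  have c1 : y * (a * a * E - E * (a * a)) = (a * a * E - E * (a * a)) * y := by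
    have hp : ∀ p q : End K V, y * p = p * y → y * q = q * y → y * (p * q) = p * q * y := by
      intro p q hp hq
      rw [← mul_assoc, hp, mul_assoc, hq, mul_assoc]
    have haa := hp a a hya hya
    rw [mul_sub, sub_mul, hp (a * a) E haa hyE, hp E (a * a) hyE haa]
  have c2 : y * (a * E - E * a) = (a * E - E * a) * y := hy.2 _ hu
  have e2 : (2 : K) • ((a * E - E * a) * (b * y - y * b)) = 0 := by
    have t1 : ((a * a * E - E * (a * a)) + (2 : K) • ((a * E - E * a) * b)) * y -
        y * ((a * a * E - E * (a * a)) + (2 : K) • ((a * E - E * a) * b)) =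
        (2 : K) • ((a * E - E * a) * (b * y - y * b)) := by
      rw [add_mul, mul_add, c1, smul_mul_assoc, mul_smul_comm, ← mul_assoc y, c2]
      have : (a * E - E * a) * (b * y - y * b) = (a * E - E * a) * b * y -
          (a * E - E * a) * y * b := by noncomm_ring
      rw [this, smul_sub]
      abel
    rw [← t1, e1, zero_mul, mul_zero, sub_zero]
  have e3 := (smul_eq_zero.1 e2).resolve_left two_ne_zero
  have e4 : (b * y - y * b) * (a * E - E * a) = 0 := by rw [hv.2 _ hu, e3]
  exact hy0 (prod_zero h hs hEG hE2 hI (u := a * E - E * a) (v := b * y - y * b)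
    (fun z hz => hz.2 _ hu) (fun z hz => (hv.2 z hz).symm) e4 haE)

section conj

variable {F F' N E : End K V} {c : K} (hFF : F * F' = 1) (hFF' : F' * F = 1)
  (hFG : ∀ y ∈ G, F * y * F' ∈ G) (hFG' : ∀ y ∈ G, F' * y * F ∈ G)

theorem conj_mul (hFF' : F' * F = 1) (x y : End K V) :
    F * (x * y) * F' = (F * x * F') * (F * y * F') := by
  calc F * (x * y) * F' = F * x * 1 * y * F' := by rw [mul_one]; noncomm_ring
  _ = F * x * (F' * F) * y * F' := by rw [hFF']
  _ = _ := by noncomm_ring

include hFF hFF' hFG hFG' in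
/-- The conjugate of the ideal generated by an element. -/
theorem conj_gn {E y : End K V} (hy : y ∈ gn G E) : F * y * F' ∈ gn G (F * E * F') := by
  unfold gn at *
  rw [Submodule.mem_sInf] at *
  rintro J ⟨hJ, hEJ⟩
  let L : Submodule K (End K V) :=
    { carrier := {x | x ∈ G ∧ F * x * F' ∈ J}
      zero_mem' := ⟨G.zero_mem, by rw [mul_zero, zero_mul]; exact J.zero_mem⟩
      add_mem' := fun {a b} ha hb => ⟨G.add_mem ha.1 hb.1, by
        rw [mul_add, add_mul]; exact J.add_mem ha.2 hb.2⟩
      smul_mem' := fun t a ha => ⟨G.smul_mem t ha.1, by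
        rw [mul_smul_comm, smul_mul_assoc]; exact J.smul_mem t ha.2⟩ }
  have hEG : E ∈ G := by
    have h1 := hFG' _ (hJ.le hEJ)
    have h2 : F' * (F * E * F') * F = E := by
      calc F' * (F * E * F') * F = (F' * F) * E * (F' * F) := by noncomm_ring
      _ = E := by rw [hFF', one_mul, mul_one]
    rwa [h2] at h1
  have hL : IsIdl G L := by
    refine ⟨fun x hx => hx.1, ?_⟩
    rintro x hx z ⟨hz, hz'⟩
    have e1 : F * (x * z - z * x) * F' =
        (F * x * F') * (F * z * F') - (F * z * F') * (F * x * F') := by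
      rw [← conj_mul hFF', ← conj_mul hFF']
      noncomm_ring
    refine ⟨?_, ?_⟩
    · have h4 := hFG' _ (hJ.le (hJ.br _ (hFG x hx) _ hz'))
      have h5 : F' * ((F * x * F') * (F * z * F') - (F * z * F') * (F * x * F')) * F =
          x * z - z * x := by
        rw [← e1]
        calc F' * (F * (x * z - z * x) * F') * F = (F' * F) * (x * z - z * x) * (F' * F) := by
              noncomm_ring
        _ = x * z - z * x := by rw [hFF', one_mul, mul_one]
      rwa [h5] at h4
    · rw [e1]
      exact hJ.br _ (hFG x hx) _ hz'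
  exact (hy L ⟨hL, hEG, hEJ⟩).2

include h hs hFF hFF' hFG hFG' in
/-- The conjugation maps the ideal to itself. -/
theorem conj_idl (hE : E ∈ G) (hE2 : E * E = 1) (hN : N ∈ gn G E)
    (hN2 : N * N = 0) (hN0 : N ≠ 0) (hFN : F * N = c • N) {y : End K V} (hy : y ∈ gn G E) :
    F * y * F' ∈ gn G E := by
  have hI := gn_idl h hE
  have hE1 : F * E * F' ∈ G := hFG E hE
  have hE12 : (F * E * F') * (F * E * F') = 1 := by
    rw [← conj_mul hFF', hE2, mul_one, hFF]
  have hc : c ≠ 0 := by
    rintro rfl
    rw [zero_smul] at hFN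
    apply hN0
    rw [← one_mul N, ← hFF', mul_assoc, hFN, mul_zero]
  have hF'N : F' * N = c⁻¹ • N := by
    have h1 : N = c⁻¹ • (F * N) := by rw [hFN, smul_smul, inv_mul_cancel₀ hc, one_smul]
    nth_rewrite 1 [h1]
    rw [mul_smul_comm, ← mul_assoc, hFF', one_mul]
  rcases invol_dich h hs hI hE1 hE12 with h1 | h1
  · exact gn_le hI h1 (conj_gn hFF hFF' hFG hFG' hy)
  · exfalso
    have h2 : F * N * F' ∈ cen G (gn G E) :=
      gn_le (cen_idl h hI) h1 (conj_gn hFF hFF' hFG hFG' hN)
    have h3 : F * N * F' * N = 0 := by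
      rw [mul_assoc, hF'N, mul_smul_comm, hFN, smul_mul_assoc, hN2, smul_zero, smul_zero]
    have h4 := prod_zero h hs hE hE2 hI (u := N) (v := F * N * F')
      (fun z hz => hz.2 _ hN) (fun z hz => (h2.2 z hz).symm) h3 hN0
    apply hN0
    have h5 : F' * (F * N * F') * F = N := by
      calc F' * (F * N * F') * F = (F' * F) * N * (F' * F) := by noncomm_ring
      _ = N := by rw [hFF', one_mul, mul_one]
    rw [← h5, h4, mul_zero, zero_mul]

include h hs hFF hFF' hFG hFG' in
/-- **An operator that acts on the range of a square-zero element of the ideal as a scalar commutes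
with the commutant of the ideal.** -/
theorem comm_cen (hE : E ∈ G) (hE2 : E * E = 1) (hN : N ∈ gn G E)
    (hN2 : N * N = 0) (hN0 : N ≠ 0) (hFN : F * N = c • N) {z : End K V}
    (hz : z ∈ cen G (gn G E)) : F * z = z * F := by
  have hI := gn_idl h hE
  have hc : c ≠ 0 := by
    rintro rfl
    rw [zero_smul] at hFN
    apply hN0
    rw [← one_mul N, ← hFF', mul_assoc, hFN, mul_zero]
  have hF'N : F' * N = c⁻¹ • N := by
    have h1 : N = c⁻¹ • (F * N) := by rw [hFN, smul_smul, inv_mul_cancel₀ hc, one_smul]
    nth_rewrite 1 [h1]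
    rw [mul_smul_comm, ← mul_assoc, hFF', one_mul]
  have key : ∀ w ∈ gn G E, F' * w * F ∈ gn G E := fun w hw =>
    conj_idl h hs hFF' hFF hFG' hFG hE hE2 hN hN2 hN0 hF'N hw
  have h1 : F * z * F' ∈ cen G (gn G E) := by
    refine ⟨hFG z hz.1, fun w hw => ?_⟩
    have h2 := hz.2 _ (key w hw)
    calc F * z * F' * w = F * (z * (F' * w * F)) * F' := by
          calc F * z * F' * w = F * z * F' * w * 1 := by rw [mul_one]
          _ = F * z * F' * w * (F * F') := by rw [hFF]
          _ = _ := by noncomm_ring
    _ = F * ((F' * w * F) * z) * F' := by rw [h2]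
    _ = (F * F') * w * (F * z * F') := by noncomm_ring
    _ = w * (F * z * F') := by rw [hFF, one_mul]
  have h2 : F * z * F' - z ∈ cen G (gn G E) := Submodule.sub_mem _ h1 hz
  have hzN := hz.2 N hN
  have h3 : (F * z * F' - z) * N = 0 := by
    rw [sub_mul, mul_assoc, hF'N, mul_smul_comm, mul_assoc, hzN, ← mul_assoc, hFN, smul_mul_assoc,
      smul_smul, inv_mul_cancel₀ hc, one_smul, sub_self]
  have h4 := prod_zero h hs hE hE2 hI (u := N) (v := F * z * F' - z)
      (fun z hz => hz.2 _ hN) (fun z hz => (h2.2 z hz).symm) h3 hN0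
  calc F * z = F * z * (F' * F) := by rw [hFF', mul_one]
  _ = (F * z * F') * F := by noncomm_ring
  _ = z * F := by rw [sub_eq_zero.1 h4]

end conj

include h hs in
theorem exists_invol_cen {D : End K V} (hD : D ∈ G) (hgn : ¬G ≤ gn G D) :
    ∃ D' ∈ cen G (gn G D), D' * D' = 1 := by
  by_contra hcon
  push Not at hcon
  have hI := gn_idl h hD
  refine hgn (h.gen _ (fun D' hD' hD'2 => ?_) fun y hy z hz => hI.br y (hI.le hy) z hz)
  rcases invol_dich h hs hI hD' hD'2 with h1 | h1
  · exact h1
  · exact absurd hD'2 (hcon D' h1)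

include h hs in
/-- An involution in an ideal is a sum of commutators of elements of the ideal. -/
theorem invol_br (hI : IsIdl G I) {D : End K V} (hD : D ∈ I) (hD2 : D * D = 1) :
    D ∈ Submodule.span K {x : End K V | ∃ a ∈ I, ∃ b ∈ I, x = a * b - b * a} := by
  obtain ⟨J, hJ⟩ : ∃ J, J = Submodule.span K {x : End K V | ∃ a ∈ I, ∃ b ∈ I,
    x = a * b - b * a} := ⟨_, rfl⟩
  rw [← hJ]
  have hDG := hI.le hD
  have hid : IsIdl G J := by
    refine ⟨?_, ?_⟩
    · rw [hJ, Submodule.span_le]
      rintro _ ⟨a, ha, b, hb, rfl⟩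
      exact hI.le (hI.br a (hI.le ha) b hb)
    · intro y hy z hz
      rw [hJ] at hz
      induction hz using Submodule.span_induction with
      | mem z hz =>
        obtain ⟨a, ha, b, hb, rfl⟩ := hz
        have e1 : y * (a * b - b * a) - (a * b - b * a) * y =
            ((y * a - a * y) * b - b * (y * a - a * y)) +
              (a * (y * b - b * y) - (y * b - b * y) * a) := by noncomm_ring
        rw [e1, hJ]
        exact Submodule.add_mem _ (Submodule.subset_span ⟨_, hI.br y hy a ha, b, hb, rfl⟩)
          (Submodule.subset_span ⟨a, ha, _, hI.br y hy b hb, rfl⟩)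
      | zero => rw [mul_zero, zero_mul, sub_zero]; exact J.zero_mem
      | add a b _ _ ha hb =>
        have e1 : y * (a + b) - (a + b) * y = (y * a - a * y) + (y * b - b * y) := by
          noncomm_ring
        rw [e1]
        exact J.add_mem ha hb
      | smul t a _ ha =>
        rw [mul_smul_comm, smul_mul_assoc, ← smul_sub]
        exact J.smul_mem t ha
  rcases invol_dich h hs hid hDG hD2 with h1 | h1
  · exact h1
  -- `D` commutes with the ideal
  have h2 : ∀ y ∈ I, D * y = y * D := by
    intro y hy
    have h3 := h1.2 (D * y - y * D) (by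
      rw [hJ]
      exact Submodule.subset_span ⟨D, hD, y, hy, rfl⟩)
    have h4 : y = D * y * D := by
      have h5 : D * (D * y - y * D) = D * D * y - D * y * D := by noncomm_ring
      have h6 : (D * y - y * D) * D = D * y * D - y * (D * D) := by noncomm_ring
      rw [h5, h6, hD2, one_mul, mul_one, sub_eq_sub_iff_add_eq_add, ← two_smul K,
        ← two_smul K] at h3
      exact smul_right_injective _ (two_ne_zero (α := K)) h3
    calc D * y = D * (D * y * D) := by rw [← h4]
    _ = (D * D) * y * D := by noncomm_ring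
    _ = y * D := by rw [hD2, one_mul]
  have h3 : D = 0 := zero_of_comm h hs hDG hD2 hI hDG h2 fun z hz => (hz.2 D hD).symm
  rw [h3]
  exact J.zero_mem

section even

variable {D y : End K V}

include h hs in
/-- **The multiplicities of the eigenvalues of an operator that commutes with an ideal containing an
involution are even.** -/
theorem even_mult (hI : IsIdl G I) (hD : D ∈ I) (hD2 : D * D = 1)
    (hy : ∀ z ∈ I, y * z = z * y) (c : K) : Even (finrank K (y.maxGenEigenspace c)) := by
  obtain ⟨p, -, hp1, hp2⟩ := Pool.Agent.Y126.OT.exists_proj_poly y c 1 (by simp)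
  obtain ⟨e, he⟩ : ∃ e, e = Polynomial.aeval y p := ⟨_, rfl⟩
  rw [← he] at hp1 hp2
  have hee : e * e = e := LinearMap.ext fun v => hp1 _ (hp2 v)
  have hec : ∀ z ∈ I, e * z = z * e := by
    intro z hz
    rw [he]
    exact Pool.Agent.Y126.OT.aeval_comm (hy z hz) p
  have hrange : LinearMap.range e = y.maxGenEigenspace c := by
    apply le_antisymm
    · rintro _ ⟨v, rfl⟩
      exact hp2 v
    · intro w hw
      exact ⟨w, hp1 w hw⟩
  have hDe : trace K V (D * e) = 0 := by
    have h1 := invol_br h hs hI hD hD2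
    clear hD2 hD
    induction h1 using Submodule.span_induction with
    | mem x hx =>
      obtain ⟨a, -, b, hb, rfl⟩ := hx
      have e1 : (a * b - b * a) * e = a * b * e - b * (a * e) := by noncomm_ring
      rw [e1, map_sub, LinearMap.trace_mul_comm K b, mul_assoc a e, hec b hb, mul_assoc, sub_self]
    | zero => rw [zero_mul, map_zero]
    | add a b _ _ ha hb => rw [add_mul, map_add, ha, hb, add_zero]
    | smul t a _ ha => rw [smul_mul_assoc, map_smul, ha, smul_zero]
  have hDec := hec D hD
  obtain ⟨q, hq⟩ : ∃ q, q = (1 / 2 : K) • ((1 + D) * e) := ⟨_, rfl⟩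
  have hqq : q * q = q := by
    have e1 : (1 + D) * e * ((1 + D) * e) = (2 : K) • ((1 + D) * e) := by
      calc (1 + D) * e * ((1 + D) * e) = (1 + D) * (e + e * D) * e := by noncomm_ring
      _ = (1 + D) * (e + D * e) * e := by rw [hDec]
      _ = (1 + D + D + D * D) * (e * e) := by noncomm_ring
      _ = (2 : K) • ((1 + D) * e) := by
        rw [hD2, hee, two_smul]
        noncomm_ring
    rw [hq, smul_mul_assoc, mul_smul_comm, e1, smul_smul, smul_smul]
    norm_num
  have htq : trace K V q = (1 / 2 : K) * trace K V e := by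
    rw [hq, map_smul, add_mul, one_mul, map_add, hDe, add_zero, smul_eq_mul]
  rw [Pool.Agent.Y91.JP.trace_idem hqq, Pool.Agent.Y91.JP.trace_idem hee] at htq
  have h2 : ((2 * rk q : ℕ) : K) = (rk e : ℕ) := by
    push_cast
    rw [htq]
    ring
  have h3 : 2 * rk q = rk e := by exact_mod_cast h2
  rw [← hrange]
  exact ⟨rk q, by rw [← two_mul, h3]; rfl⟩

end even

end

end Pool.Agent.Y126.JP
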