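import Mathlib
import Pool.Agent.Y126.JP.Tensor

/-!
# Rank one elements from small common divisors of ranks
-/

set_option linter.unusedSectionVars false

namespace Pool.Agent.Y126.JP

open Module LinearMap Pool.Agent.W548.Odd Pool.Agent.Y91.JP

noncomputable section

variable {K : Type} [Field K] [CharZero K] {V : Type} [AddCommGroup V] [Module K V]
  [FiniteDimensional K V] {ω : V →ₗ[K] V →ₗ[K] K} {𝔥 : Submodule K (End K V)}
  (hbr : ∀ X ∈ 𝔥, ∀ Y ∈ 𝔥, X * Y - Y * X ∈ 𝔥)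
  (hsp : ∀ y ∈ 𝔥, ∀ a b, ω (y a) b + ω a (y b) = 0)
  (hirr : ∀ W : Submodule K V, (∀ X ∈ 𝔥, X * X = (1 / 4 : K) • 1 → ∀ u ∈ W, X u ∈ W) →
    W = ⊥ ∨ W = ⊤)
  (halt : ∀ v, ω v v = 0) (hndl : ∀ u, (∀ v, ω u v = 0) → u = 0)
  (hndr : ∀ w, (∀ v, ω v w = 0) → w = 0)

include hbr hsp hirr hndl hndr in
theorem qp [IsAlgClosed K] : Pool.Agent.W528.Odd.QP ω 𝔥 := by
  have h := gw_qp hbr hsp hirr
  rwa [gw_eq hbr hsp hirr hndl hndr] at h

include hbr hsp hirr halt hndl hndr in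
/-- In the simple case the rank of a minimal element divides the rank of all square-zero
elements. -/
theorem rk_dvd_simple [IsAlgClosed K] {D e : End K V} (hD : D ∈ 𝔥) (hD2 : D * D = 1)
    (hgn : 𝔥 ≤ gn 𝔥 D) (he : e ∈ Kp 𝔥 D) (he0 : e ≠ 0)
    (hmin : ∀ y ∈ 𝔥, ∃ s : K, e * y * e = s • e) {n : End K V} (hn : n ∈ 𝔥) (hn2 : n * n = 0) :
    rk e ∣ rk n := by
  have h := setup hbr hsp hirr hndl hndr
  have hs := scal hirr
  have hQ := qp hbr hsp hirr hndl hndr
  have hsirr : Pool.Agent.W528.Odd.SIrr (Pool.Agent.W528.Odd.rN 𝔥) := by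
    refine Pool.Agent.W125.OT.SIrrT.main K V _ (Pool.Agent.W528.Odd.rN 𝔥) 𝔥 ?_ hQ.irr
    intro X hX hXX
    exact ⟨⟨Pool.Agent.W528.Odd.unX hXX, Pool.Agent.W528.Odd.unX_mem hXX
      (fun y hy => hQ.br X hX y hy)⟩, rfl⟩
  have hS := Pool.Agent.W528.Odd.setup_rN (Pool.Agent.W528.Odd.rN 𝔥) hsirr hQ.br
    (fun g x hx => g.2.1 x hx) ω hndl hQ.sp
  have hcs : Pool.Agent.W528.Odd.cspan 𝔥 e = 𝔥 := by
    refine le_antisymm (Pool.Agent.W528.Odd.cspan_le he.1) ?_
    have hid : IsIdl 𝔥 (Pool.Agent.W528.Odd.cspan 𝔥 e) :=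
      ⟨Pool.Agent.W528.Odd.cspan_le he.1, Pool.Agent.W528.Odd.ideal_of_conj hQ fun g y hy =>
        Pool.Agent.W528.Odd.cspan_conj g hy⟩
    have hm := Pool.Agent.W528.Odd.mem_cspan (𝔮 := 𝔥) e
    rcases invol_dich h hs hid hD hD2 with h1 | h1
    · exact hgn.trans (gn_le hid h1)
    · exfalso
      have h2 := h1.2 e hm
      rw [he.2.1, he.2.2] at h2
      apply he0
      have h3 : (2 : K) • e = 0 := by
        rw [two_smul]
        nth_rewrite 1 [h2]
        exact neg_add_cancel e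
      exact (smul_eq_zero.1 h3).resolve_left two_ne_zero
  have hNO : Pool.Agent.W528.Odd.NoOrthOf (Pool.Agent.W528.Odd.rN 𝔥) 𝔥 e := by
    intro y hy hy0
    have hyq : y ∈ 𝔥 := by
      have h1 : Pool.Agent.W528.Odd.sq 𝔥 ≤ 𝔥 := by
        rw [Pool.Agent.W528.Odd.sq, Submodule.span_le]
        rintro x ⟨hx, -⟩
        exact hx
      exact h1 hy
    have h2 : y ∈ 𝔥 ⊓ Pool.Agent.W528.Odd.orth 𝔥 𝔥 := by
      refine ⟨hyq, hyq, fun z hz => ?_⟩
      rw [← hcs] at hz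
      induction hz using Submodule.span_induction with
      | mem z hz =>
        obtain ⟨g, rfl⟩ := hz
        exact hy0 g
      | zero => rw [mul_zero, map_zero]
      | add a b _ _ ha hb => rw [mul_add, map_add, ha, hb, add_zero]
      | smul c a _ ha => rw [mul_smul_comm, map_smul, ha, smul_zero]
    rw [Pool.Agent.W528.Odd.inf_orth hndl hQ le_rfl hQ.br, Submodule.mem_bot] at h2
    exact h2
  have hee : e * e = 0 := by
    have h1 : e * e = -(e * e) := by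
      nth_rewrite 2 [← he.2.1]
      rw [← mul_assoc, he.2.2, neg_mul]
    have h3 : (2 : K) • (e * e) = 0 := by
      rw [two_smul]
      nth_rewrite 1 [h1]
      exact neg_add_cancel _
    exact (smul_eq_zero.1 h3).resolve_left two_ne_zero
  exact Pool.Agent.W806.OT.DIV.main K V (Pool.Agent.W528.Odd.Nz 𝔥) (Pool.Agent.W528.Odd.rN 𝔥) 𝔥 hS
    e he.1 hee hmin hNO n hn hn2

include hbr hsp hirr hndl hndr in
/-- **Simplicity**: if a normalizing operator `F` with an eigenvalue of odd multiplicity acts as a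
scalar on the range of a square-zero element `N ≠ 0`, the Lie algebra is generated, as an ideal, by
each of its involutions. -/
theorem simple_of_odd [IsAlgClosed K] {N F F' : End K V} (hN : N ∈ 𝔥) (hN2 : N * N = 0)
    (hN0 : N ≠ 0) (hFF : F * F' = 1) (hFF' : F' * F = 1) (hFG : ∀ y ∈ 𝔥, F * y * F' ∈ 𝔥)
    (hFG' : ∀ y ∈ 𝔥, F' * y * F ∈ 𝔥) {c : K} (hFN : F * N = c • N) {c₀ : K}
    (hodd : Odd (finrank K (F.maxGenEigenspace c₀))) {D : End K V} (hD : D ∈ 𝔥)
    (hD2 : D * D = 1) : 𝔥 ≤ gn 𝔥 D := by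
  have h := setup hbr hsp hirr hndl hndr
  have hs := scal hirr
  obtain ⟨E, hE, hE2, hEN⟩ : ∃ E ∈ 𝔥, E * E = 1 ∧ E * N ≠ N * E := by
    by_contra hcon
    push Not at hcon
    obtain ⟨s, hs'⟩ := hs N (comm_of_invol h hcon)
    have h1 : (s * s) • (1 : End K V) = 0 := by
      have h2 : N * N = (s * s) • (1 : End K V) := by
        rw [hs', smul_mul_assoc, mul_smul_comm, one_mul, smul_smul]
      rw [← h2, hN2]
    rcases smul_eq_zero.1 h1 with h2 | h2
    · apply hN0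
      rw [hs', mul_self_eq_zero.1 h2, zero_smul]
    · apply hN0
      rw [← mul_one N, h2, mul_zero]
  have hI := gn_idl h hE
  have hNI : N ∈ gn 𝔥 E := sq_mem h hs hI mem_gn hE2 hN hN2 hEN
  have hgn : 𝔥 ≤ gn 𝔥 E := by
    by_contra hgn
    obtain ⟨D', hD', hD'2⟩ := exists_invol_cen h hs hE hgn
    have h1 := even_mult h hs (cen_idl h hI) hD' hD'2 (y := F)
      (fun z hz => comm_cen h hs hFF hFF' hFG hFG' hE hE2 hNI hN2 hN0 hFN hz) c₀
    exact (Nat.not_even_iff_odd.2 hodd) h1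
  have hJ := gn_idl h hD
  rcases invol_dich h hs hJ hE hE2 with h1 | h1
  · exact hgn.trans (gn_le hJ h1)
  · exfalso
    have h2 : 𝔥 ≤ cen 𝔥 (gn 𝔥 D) := hgn.trans (gn_le (cen_idl h hJ) h1)
    have h3 : D = 0 := central_zero h hs hD hD2 hD fun z hz => ((h2 hz).2 D mem_gn).symm
    apply hN0
    rw [← mul_one N, ← hD2, h3, mul_zero, mul_zero]

variable (hsimple : ∀ D ∈ 𝔥, D * D = 1 → 𝔥 ≤ gn 𝔥 D)

include hbr hsp hirr halt hndl hndr hsimple in
/-- **Rank one elements**, from an element of small rank or from small common divisors of the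
ranks of the square-zero elements. -/
theorem exists_rank_one_small [IsAlgClosed K] {z : End K V} (hz : z ∈ 𝔥) (hz0 : z ≠ 0)
    (hsmall : 4 * rk z < finrank K V ∨
      ∀ r, (∀ n ∈ 𝔥, n * n = 0 → r ∣ rk n) → 4 * r < finrank K V) :
    ∃ e ∈ 𝔥, rk e = 1 := by
  have h := setup hbr hsp hirr hndl hndr
  have hs := scal hirr
  obtain ⟨E, hE, hE2, hEz⟩ : ∃ E ∈ 𝔥, E * E = 1 ∧ E * z ≠ z * E := by
    by_contra hcon
    push Not at hcon
    obtain ⟨s, hs'⟩ := hs z (comm_of_invol h hcon)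
    by_cases hD : ∃ D ∈ 𝔥, D * D = 1
    · obtain ⟨D, hD, hD2⟩ := hD
      exact hz0 (scalar_zero h hD hD2 hz hs')
    · push Not at hD
      have h1 : 𝔥 ≤ ⊥ := h.gen ⊥ (fun D hD' hD2 => absurd hD2 (hD D hD'))
        (fun y hy z hz => by
          rw [(Submodule.mem_bot K).1 hy, zero_mul, mul_zero, sub_zero]
          exact Submodule.zero_mem _)
      exact hz0 ((Submodule.mem_bot K).1 (h1 hz))
  obtain ⟨D, -, hD, hD2, e, he, he0, hez, hmin, f, hf, hefe, hfef⟩ :=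
    exists_small_min h hE hE2 hz hEz
  have hgn := hsimple D hD hD2
  refine ⟨e, he.1, simple_case h hs (altF_adj halt hndr) (adj_trace hndr) hD hD2 hgn he hf
      hefe hfef he0 hmin ?_⟩
  rcases hsmall with hsmall | hsmall
  · exact (Nat.mul_le_mul_left 4 hez).trans_lt hsmall
  · exact hsmall _ fun n hn hn2 => rk_dvd_simple hbr hsp hirr halt hndl hndr hD hD2 hgn he he0
      hmin hn hn2

end

end Pool.Agent.Y126.JP
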