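import Mathlib
import Pool.Agent.Y126.JP.Small

/-!
# Elements of small rank from eigenvalues of small multiplicity
-/

set_option linter.unusedSectionVars false

namespace Pool.Agent.Y126.JP

open Module LinearMap Polynomial Pool.Agent.W548.Odd Pool.Agent.Y91.JP

noncomputable section

variable {K : Type} [Field K] [CharZero K] {V : Type} [AddCommGroup V] [Module K V]
  [FiniteDimensional K V]

theorem rk_add_le (a b : End K V) : rk (a + b) ≤ rk a + rk b := by
  unfold rk
  have h1 : LinearMap.range (a + b) ≤ LinearMap.range a ⊔ LinearMap.range b := by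
    rintro _ ⟨v, rfl⟩
    exact Submodule.add_mem_sup ⟨v, rfl⟩ ⟨v, rfl⟩
  exact (Submodule.finrank_mono h1).trans
    (Submodule.finrank_add_le_finrank_add_finrank _ _)

theorem rk_le_of_range {a : End K V} {W : Submodule K V} (h : ∀ v, a v ∈ W) :
    rk a ≤ finrank K W := by
  unfold rk
  refine Submodule.finrank_mono ?_
  rintro _ ⟨v, rfl⟩
  exact h v

/-! ### The components with respect to a grading -/

section grading

variable {h : End K V} (h3 : h * h * h = h)

/-- The projection on the part of degree zero. -/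
def P0 (h : End K V) : End K V := 1 - h * h

/-- The projection on the part of degree one. -/
def Pp (h : End K V) : End K V := (1 / 2 : K) • (h * h + h)

/-- The projection on the part of degree minus one. -/
def Pm (h : End K V) : End K V := (1 / 2 : K) • (h * h - h)

theorem P_sum : Pp h + P0 h + Pm h = 1 := by
  unfold Pp P0 Pm
  module

theorem Pp_sub_Pm : Pp h - Pm h = h := by
  unfold Pp Pm
  module

include h3

theorem h_Pp : h * Pp h = Pp h := by
  unfold Pp
  rw [mul_smul_comm, mul_add, ← mul_assoc, h3, add_comm]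

theorem Pp_h : Pp h * h = Pp h := by
  unfold Pp
  rw [smul_mul_assoc, add_mul, h3, add_comm]

theorem h_Pm : h * Pm h = -Pm h := by
  unfold Pm
  rw [mul_smul_comm, mul_sub, ← mul_assoc, h3, ← smul_neg, neg_sub]

theorem Pm_h : Pm h * h = -Pm h := by
  unfold Pm
  rw [smul_mul_assoc, sub_mul, h3, ← smul_neg, neg_sub]

theorem h_P0 : h * P0 h = 0 := by
  unfold P0
  rw [mul_sub, mul_one, ← mul_assoc, h3, sub_self]

theorem P0_h : P0 h * h = 0 := by
  unfold P0
  rw [sub_mul, one_mul, h3, sub_self]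

theorem P0_Pm : P0 h * Pm h = 0 := by
  have e : Pm h = (1 / 2 : K) • (h * (h - 1)) := by
    unfold Pm
    rw [mul_sub, mul_one]
  rw [e, mul_smul_comm, ← mul_assoc, P0_h h3, zero_mul, smul_zero]

theorem Pm_Pm : Pm h * Pm h = Pm h := by
  have e : Pm h * Pm h = (1 / 2 : K) • (Pm h * h * h - Pm h * h) := by
    nth_rewrite 2 [Pm]
    rw [mul_smul_comm, mul_sub, mul_assoc]
  rw [e, Pm_h h3, neg_mul, Pm_h h3]
  module

theorem P0_P0 : P0 h * P0 h = P0 h := by
  nth_rewrite 2 [P0]
  rw [mul_sub, mul_one, ← mul_assoc, P0_h h3, zero_mul, sub_zero]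

theorem Pp_P0 : Pp h * P0 h = 0 := by
  have e : Pp h = (1 / 2 : K) • ((h + 1) * h) := by
    unfold Pp
    rw [add_mul, one_mul]
  rw [e, smul_mul_assoc, mul_assoc, h_P0 h3, mul_zero, smul_zero]

theorem P0_Pp : P0 h * Pp h = 0 := by
  have e : Pp h = (1 / 2 : K) • (h * (h + 1)) := by
    unfold Pp
    rw [mul_add, mul_one]
  rw [e, mul_smul_comm, ← mul_assoc, P0_h h3, zero_mul, smul_zero]

/-- The component of degree one. -/
theorem comp_one {𝔥 : Submodule K (End K V)} (hst : ∀ y ∈ 𝔥, h * y - y * h ∈ 𝔥) {z : End K V}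
    (hz : z ∈ 𝔥) : P0 h * z * Pm h + Pp h * z * P0 h ∈ 𝔥 := by
  obtain ⟨d, hd⟩ : ∃ d : End K V → End K V, d = fun y => h * y - y * h := ⟨_, rfl⟩
  have hdst : ∀ y ∈ 𝔥, d y ∈ 𝔥 := by
    rw [hd]
    exact hst
  have hadd : ∀ a b, d (a + b) = d a + d b := by
    intro a b
    simp only [hd]
    noncomm_ring
  have hsmul : ∀ (t : K) a, d (t • a) = t • d a := by
    intro t a
    simp only [hd]
    rw [mul_smul_comm, smul_mul_assoc, smul_sub]
  obtain ⟨a, ha⟩ : ∃ a, a = Pp h * z * Pm h := ⟨_, rfl⟩
  obtain ⟨b, hb⟩ : ∃ b, b = P0 h * z * Pm h + Pp h * z * P0 h := ⟨_, rfl⟩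
  obtain ⟨c, hc⟩ : ∃ c, c = Pp h * z * Pp h + P0 h * z * P0 h + Pm h * z * Pm h := ⟨_, rfl⟩
  obtain ⟨e, he⟩ : ∃ e, e = P0 h * z * Pp h + Pm h * z * P0 h := ⟨_, rfl⟩
  obtain ⟨f, hf⟩ : ∃ f, f = Pm h * z * Pp h := ⟨_, rfl⟩
  have hz' : z = a + b + c + e + f := by
    calc z = (Pp h + P0 h + Pm h) * z * (Pp h + P0 h + Pm h) := by rw [P_sum, one_mul, mul_one]
    _ = a + b + c + e + f := by
      rw [ha, hb, hc, he, hf]
      noncomm_ring
  have key : ∀ (p q : End K V) (s t : K), h * p = s • p → q * h = t • q →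
      d (p * z * q) = (s - t) • (p * z * q) := by
    intro p q s t hp hq
    rw [hd]
    change h * (p * z * q) - (p * z * q) * h = _
    rw [← mul_assoc, ← mul_assoc, hp, mul_assoc _ q, hq, smul_mul_assoc, smul_mul_assoc,
      mul_smul_comm, sub_smul]
  have k1 : h * Pp h = (1 : K) • Pp h := by rw [h_Pp h3, one_smul]
  have k2 : Pp h * h = (1 : K) • Pp h := by rw [Pp_h h3, one_smul]
  have k3 : h * Pm h = (-1 : K) • Pm h := by rw [h_Pm h3, neg_one_smul]
  have k4 : Pm h * h = (-1 : K) • Pm h := by rw [Pm_h h3, neg_one_smul]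
  have k5 : h * P0 h = (0 : K) • P0 h := by rw [h_P0 h3, zero_smul]
  have k6 : P0 h * h = (0 : K) • P0 h := by rw [P0_h h3, zero_smul]
  have da : d a = (2 : K) • a := by
    rw [ha, key _ _ _ _ k1 k4]
    norm_num
  have db : d b = (1 : K) • b := by
    rw [hb, hadd, key _ _ _ _ k5 k4, key _ _ _ _ k1 k6]
    norm_num
  have dc : d c = (0 : K) • c := by
    rw [hc, hadd, hadd, key _ _ _ _ k1 k2, key _ _ _ _ k5 k6, key _ _ _ _ k3 k4]
    simp
  have de : d e = (-1 : K) • e := by
    rw [he, hadd, key _ _ _ _ k5 k2, key _ _ _ _ k3 k6]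
    norm_num
  have df : d f = (-2 : K) • f := by
    rw [hf, key _ _ _ _ k3 k2]
    norm_num
  rw [← hb]
  have m1 := hdst z hz
  have m2 := hdst _ m1
  have m3 := hdst _ m2
  have m4 := hdst _ m3
  have e1 : d z = (2 : K) • a + b - e - (2 : K) • f := by
    nth_rewrite 1 [hz']
    rw [hadd, hadd, hadd, hadd, da, db, dc, de, df]
    module
  have hneg : ∀ y, d (-y) = -d y := by
    intro y
    have := hsmul (-1) y
    rwa [neg_one_smul, neg_one_smul] at this
  have hsub : ∀ x y, d (x - y) = d x - d y := by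
    intro x y
    rw [sub_eq_add_neg, hadd, hneg, ← sub_eq_add_neg]
  have e2 : d (d z) = (4 : K) • a + b + e + (4 : K) • f := by
    rw [e1, hsub, hsub, hadd, hsmul, hsmul, da, db, de, df]
    module
  have e3 : d (d (d z)) = (8 : K) • a + b - e - (8 : K) • f := by
    rw [e2, hadd, hadd, hadd, hsmul, hsmul, da, db, de, df]
    module
  have e4 : d (d (d (d z))) = (16 : K) • a + b + e + (16 : K) • f := by
    rw [e3, hsub, hsub, hadd, hsmul, hsmul, da, db, de, df]
    module
  have e5 : b = (-(1 / 6) : K) • (d (d (d (d z))) + d (d (d z)) - (4 : K) • d (d z) -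
      (4 : K) • d z) := by
    rw [e4, e3, e2, e1]
    module
  rw [e5]
  exact 𝔥.smul_mem _ (𝔥.sub_mem (𝔥.sub_mem (𝔥.add_mem m4 m3) (𝔥.smul_mem _ m2))
    (𝔥.smul_mem _ m1))

end grading

/-! ### Polynomials in a conjugation -/

section conj

variable {F F' : End K V}

/-- The conjugation by `F`. -/
def Ad (F F' : End K V) : End K (End K V) := LinearMap.mulLeft K F * LinearMap.mulRight K F'

theorem Ad_apply (y : End K V) : Ad F F' y = F * y * F' := by
  change F * (y * F') = _
  rw [mul_assoc]

theorem aeval_stable {M : Type} [AddCommGroup M] [Module K M] {A : End K M}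
    {S : Submodule K M} (hS : ∀ y ∈ S, A y ∈ S) (q : K[X]) : ∀ y ∈ S, aeval A q y ∈ S := by
  induction q using Polynomial.induction_on' with
  | add p q hp hq =>
    intro y hy
    rw [map_add]
    exact S.add_mem (hp y hy) (hq y hy)
  | monomial n a =>
    intro y hy
    rw [aeval_monomial, Module.algebraMap_end_eq_smul_id, Module.End.mul_apply]
    refine S.smul_mem a ?_
    induction n with
    | zero => exact hy
    | succ n ih =>
      rw [pow_succ', Module.End.mul_apply]
      exact hS _ ih

theorem aeval_Ad {c : K} {P : End K V} (hP : F' * P = c⁻¹ • P) (q : K[X]) :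
    ∀ y : End K V, aeval (Ad F F') q y * P = aeval (c⁻¹ • F) q * y * P := by
  induction q using Polynomial.induction_on' with
  | add p q hp hq =>
    intro y
    rw [map_add, LinearMap.add_apply, add_mul, hp, hq, map_add, add_mul, add_mul]
  | monomial n a =>
    intro y
    rw [aeval_monomial, aeval_monomial, Module.algebraMap_end_eq_smul_id,
      Module.algebraMap_end_eq_smul_id, Module.End.mul_apply]
    have h1 : ∀ n : ℕ, ((Ad F F') ^ n) y * P = (c⁻¹ • F) ^ n * y * P := by
      intro n
      induction n with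
      | zero => rw [pow_zero, pow_zero, one_mul]; rfl
      | succ n ih =>
        rw [pow_succ', Module.End.mul_apply, Ad_apply, pow_succ', mul_assoc _ F', hP,
          mul_smul_comm, mul_assoc F, ih]
        simp only [smul_mul_assoc, mul_assoc]
    change a • ((Ad F F' ^ n) y) * P = a • LinearMap.id * (c⁻¹ • F) ^ n * y * P
    rw [smul_mul_assoc, h1]
    rfl

end conj

section main

variable {ω : V →ₗ[K] V →ₗ[K] K} {𝔥 : Submodule K (End K V)}
  (hbr : ∀ X ∈ 𝔥, ∀ Y ∈ 𝔥, X * Y - Y * X ∈ 𝔥)
  (hsp : ∀ y ∈ 𝔥, ∀ a b, ω (y a) b + ω a (y b) = 0)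
  (hirr : ∀ W : Submodule K V, (∀ X ∈ 𝔥, X * X = (1 / 4 : K) • 1 → ∀ u ∈ W, X u ∈ W) →
    W = ⊥ ∨ W = ⊤)
  (hndr : ∀ w, (∀ v, ω v w = 0) → w = 0)

include hbr hirr in
/-- An irreducibility argument. -/
theorem no_invisible {N h : End K V} (hN0 : N ≠ 0) (hh : h ∈ 𝔥) (hhN : h * N = N)
    (h3 : h * h * h = h) {v : V} (hv : h v = 0) (hzv : ∀ z ∈ 𝔥, h (z v) = 0) : v = 0 := by
  let S : Submodule K V :=
    { carrier := {v | h v = 0 ∧ ∀ z ∈ 𝔥, h (z v) = 0}
      zero_mem' := ⟨map_zero _, fun z _ => by rw [map_zero, map_zero]⟩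
      add_mem' := fun {a b} ha hb => ⟨by rw [map_add, ha.1, hb.1, add_zero], fun z hz => by
        rw [map_add, map_add, ha.2 z hz, hb.2 z hz, add_zero]⟩
      smul_mem' := fun c a ha => ⟨by rw [map_smul, ha.1, smul_zero], fun z hz => by
        rw [map_smul, map_smul, ha.2 z hz, smul_zero]⟩ }
  have hS : ∀ x ∈ 𝔥, ∀ v ∈ S, x v ∈ S := by
    rintro x hx v ⟨hv, hzv⟩
    refine ⟨hzv x hx, fun z hz => ?_⟩
    have hw : h (x v) = 0 := hzv x hx
    have m1 := hbr _ hh _ hz
    have m2 := hbr _ m1 _ hx
    have e1 : (h * z - z * h) v = 0 := by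
      rw [LinearMap.sub_apply, Module.End.mul_apply, Module.End.mul_apply, hv, map_zero, sub_zero]
      exact hzv z hz
    have e2 : ((h * z - z * h) * x - x * (h * z - z * h)) v = h (z (x v)) := by
      rw [LinearMap.sub_apply, Module.End.mul_apply x, e1, map_zero, sub_zero,
        Module.End.mul_apply, LinearMap.sub_apply, Module.End.mul_apply, Module.End.mul_apply, hw,
        map_zero, sub_zero]
    have e3 : h (h (z (x v))) = 0 := by
      rw [← e2]
      exact hzv _ m2
    have e4 : h (h (h (z (x v)))) = h (z (x v)) := LinearMap.congr_fun h3 (z (x v))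
    rw [← e4, e3, map_zero]
  rcases hirr S fun X hX _ => hS X hX with h1 | h1
  · have h2 : v ∈ S := ⟨hv, hzv⟩
    rwa [h1, Submodule.mem_bot] at h2
  · exfalso
    apply hN0
    rw [← hhN]
    have h2 : h = 0 := LinearMap.ext fun w => (show w ∈ S by rw [h1]; trivial).1
    rw [h2, zero_mul]

include hbr hsp hirr hndr in
/-- **Elements of small rank.**  Let `h` be an element with eigenvalues `1`, `0`, `- 1`, `N` a
square-zero element of degree two that maps the eigenspace of `- 1` onto the eigenspace of `1`, and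
`F` an operator normalizing the Lie algebra, commuting with `h`, that is a scalar on the eigenspace
of `- 1`.  Then for every generalized eigenspace of `F` in the eigenspace of `0` there is an
element of the Lie algebra whose rank is at most twice its dimension. -/
theorem exists_small_elt {N F F' h : End K V} (hN : N ∈ 𝔥) (hN0 : N ≠ 0) (hh : h ∈ 𝔥)
    (h3 : h * h * h = h) (hhN : h * N = N) (hNh : N * h = -N)
    (hrange : ∀ v, h v = v → ∃ w, v = N w) (hFF' : F' * F = 1)
    (hFG : ∀ y ∈ 𝔥, F * y * F' ∈ 𝔥) (hFh : F * h = h * F) (hF'h : F' * h = h * F') {c : K}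
    (hF : ∀ v, h v = -v → F v = c • v) {α : K} (hα0 : F.maxGenEigenspace α ≠ ⊥)
    (hα : ∀ v ∈ F.maxGenEigenspace α, h v = 0) :
    ∃ z ∈ 𝔥, z ≠ 0 ∧ rk z ≤ 2 * finrank K (F.maxGenEigenspace α) := by
  classical
  obtain ⟨m, hm⟩ : ∃ m, m = finrank K (F.maxGenEigenspace α) := ⟨_, rfl⟩
  rw [← hm]
  by_contra hcon
  push Not at hcon
  -- `F` on the part of degree `- 1`
  obtain ⟨v₀, hv₀⟩ : ∃ v, N v ≠ 0 := by
    by_contra h0
    push Not at h0
    exact hN0 (LinearMap.ext h0)
  have hNPm : N * Pm h = N := by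
    unfold Pm
    rw [mul_smul_comm, mul_sub, ← mul_assoc, hNh, neg_mul, hNh]
    module
  have hPmne : Pm h v₀ ≠ 0 := by
    intro h0
    apply hv₀
    rw [← hNPm, Module.End.mul_apply, h0, map_zero]
  have hhPm : ∀ v, h (Pm h v) = -Pm h v := fun v => by
    have := LinearMap.congr_fun (h_Pm h3) v
    exact this
  have hc : c ≠ 0 := by
    rintro rfl
    have h1 := hF _ (hhPm v₀)
    rw [zero_smul] at h1
    apply hPmne
    have h2 : F' (F (Pm h v₀)) = Pm h v₀ := LinearMap.congr_fun hFF' _
    rw [← h2, h1, map_zero]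
  have hFPm : F * Pm h = c • Pm h := LinearMap.ext fun v => hF _ (hhPm v)
  have hF'Pm : F' * Pm h = c⁻¹ • Pm h := by
    have h1 : Pm h = c⁻¹ • (F * Pm h) := by rw [hFPm, smul_smul, inv_mul_cancel₀ hc, one_smul]
    nth_rewrite 1 [h1]
    rw [mul_smul_comm, ← mul_assoc, hFF', one_mul]
  -- the projection on the generalized eigenspace
  obtain ⟨p, -, hp1, hp2⟩ := Pool.Agent.Y126.OT.exists_proj_poly F α 1 (by simp)
  obtain ⟨P, hP⟩ : ∃ P, P = aeval F p := ⟨_, rfl⟩
  rw [← hP] at hp1 hp2
  have hPh' : P * h = h * P := by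
    rw [hP]
    exact Pool.Agent.Y126.OT.aeval_comm hFh p
  have hhP : h * P = 0 := LinearMap.ext fun v => hα _ (hp2 v)
  have hPh : P * h = 0 := by rw [hPh', hhP]
  have hPP0 : P * P0 h = P := by
    unfold P0
    rw [mul_sub, mul_one, ← mul_assoc, hPh, zero_mul, sub_zero]
  have hPPp : P * Pp h = 0 := by
    unfold Pp
    rw [mul_smul_comm, mul_add, ← mul_assoc, hPh, zero_mul, add_zero, smul_zero]
  -- the adjoint
  have hst : ∀ y ∈ 𝔥, adj ω hndr y = -y := fun y hy => adj_unique hndr fun v w => by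
    rw [LinearMap.neg_apply, map_neg]
    exact eq_neg_of_add_eq_zero_left (hsp y hy v w)
  have hstm : ∀ a b, adj ω hndr (a * b) = adj ω hndr b * adj ω hndr a := fun a b =>
    adj_unique hndr fun v w => by
      rw [Module.End.mul_apply, adj_spec hndr a, adj_spec hndr b, Module.End.mul_apply]
  have hst1 : adj ω hndr 1 = 1 := adj_unique hndr fun v w => rfl
  have hstP0 : adj ω hndr (P0 h) = P0 h := by
    unfold P0
    rw [map_sub, hst1, hstm, hst h hh, neg_mul_neg]
  -- the elements of degree one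
  have key : ∀ z ∈ 𝔥, P * z * Pm h = 0 := by
    intro z hz
    obtain ⟨z1, hz1⟩ : ∃ z1, z1 = P0 h * z * Pm h + Pp h * z * P0 h := ⟨_, rfl⟩
    have m1 : z1 ∈ 𝔥 := by
      rw [hz1]
      exact comp_one h3 (fun y hy => hbr _ hh _ hy) hz
    obtain ⟨q, hq⟩ : ∃ q, q = p.comp (C c * X) := ⟨_, rfl⟩
    obtain ⟨y, hy⟩ : ∃ y, y = aeval (Ad F F') q z1 := ⟨_, rfl⟩
    have hqF : aeval (c⁻¹ • F) q = P := by
      rw [hq, aeval_comp, map_mul, aeval_C, aeval_X, Algebra.algebraMap_eq_smul_one,
        smul_mul_assoc, one_mul, smul_smul, mul_inv_cancel₀ hc, one_smul, hP]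
    have m2 : y ∈ 𝔥 := by
      rw [hy]
      exact aeval_stable (fun x hx => by rw [Ad_apply]; exact hFG x hx) q _ m1
    have e1 : y * Pm h = P * z * Pm h := by
      rw [hy, aeval_Ad hF'Pm, hqF, hz1]
      have : P * (P0 h * z * Pm h + Pp h * z * P0 h) * Pm h =
          (P * P0 h) * z * (Pm h * Pm h) + P * Pp h * z * (P0 h * Pm h) := by noncomm_ring
      rw [this, hPP0, Pm_Pm h3, P0_Pm h3, mul_zero, add_zero]
    -- the degree of `y`
    have e2 : h * y - y * h = y := by
      let L : Submodule K (End K V) :=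
        { carrier := {x | h * x - x * h = x}
          zero_mem' := by
            change h * 0 - 0 * h = 0
            rw [mul_zero, zero_mul, sub_zero]
          add_mem' := fun {a b} ha hb => by
            change h * (a + b) - (a + b) * h = a + b
            have : h * (a + b) - (a + b) * h = (h * a - a * h) + (h * b - b * h) := by
              noncomm_ring
            rw [this, show h * a - a * h = a from ha, show h * b - b * h = b from hb]
          smul_mem' := fun t a ha => by
            change h * (t • a) - (t • a) * h = t • a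
            rw [mul_smul_comm, smul_mul_assoc, ← smul_sub, show h * a - a * h = a from ha] }
      have hL : y ∈ L := by
        rw [hy]
        refine aeval_stable (S := L) (fun x hx => ?_) q _ ?_
        · have hx' : h * x - x * h = x := hx
          rw [Ad_apply]
          change h * (F * x * F') - F * x * F' * h = F * x * F'
          calc h * (F * x * F') - F * x * F' * h = (h * F) * x * F' - F * x * (F' * h) := by
                noncomm_ring
          _ = (F * h) * x * F' - F * x * (h * F') := by rw [hFh, hF'h]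
          _ = F * (h * x - x * h) * F' := by noncomm_ring
          _ = F * x * F' := by rw [hx']
        · change h * z1 - z1 * h = z1
          rw [hz1]
          have : h * (P0 h * z * Pm h + Pp h * z * P0 h) -
              (P0 h * z * Pm h + Pp h * z * P0 h) * h = (h * P0 h) * z * Pm h +
              (h * Pp h) * z * P0 h - P0 h * z * (Pm h * h) - Pp h * z * (P0 h * h) := by
            noncomm_ring
          rw [this, h_P0 h3, h_Pp h3, Pm_h h3, P0_h h3]
          noncomm_ring
      exact hL
    have e3 : h * y = y + y * h := sub_eq_iff_eq_add.1 e2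
    have yPp : y * Pp h = 0 := by
      have t1 : h * (y * Pp h) = (2 : K) • (y * Pp h) := by
        rw [← mul_assoc, e3, add_mul, mul_assoc, h_Pp h3, two_smul]
      have t2 : h * h * h * (y * Pp h) = (8 : K) • (y * Pp h) := by
        rw [mul_assoc, mul_assoc, t1, mul_smul_comm, t1, mul_smul_comm, mul_smul_comm, t1]
        module
      rw [h3, t1] at t2
      have t3 : (6 : K) • (y * Pp h) = 0 := by
        have : (6 : K) • (y * Pp h) = (8 : K) • (y * Pp h) - (2 : K) • (y * Pp h) := by module
        rw [this, ← t2, sub_self]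
      exact (smul_eq_zero.1 t3).resolve_left (by norm_num)
    have yP0 : P0 h * (y * P0 h) = 0 := by
      have t1 : h * (y * P0 h) = y * P0 h := by
        rw [← mul_assoc, e3, add_mul, mul_assoc, h_P0 h3, mul_zero, add_zero]
      rw [← t1, ← mul_assoc, P0_h h3, zero_mul]
    have yPm : P0 h * (y * Pm h) = y * Pm h := by
      have t1 : h * (y * Pm h) = 0 := by
        rw [← mul_assoc, e3, add_mul, mul_assoc, h_Pm h3, mul_neg, add_neg_cancel]
      unfold P0
      rw [sub_mul, one_mul, mul_assoc, t1, mul_zero, sub_zero]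
    have ysum : y = y * Pm h + y * P0 h := by
      calc y = y * (Pp h + P0 h + Pm h) := by rw [P_sum, mul_one]
      _ = y * Pp h + y * P0 h + y * Pm h := by noncomm_ring
      _ = _ := by rw [yPp]; abel
    have P0y : P0 h * y = y * Pm h := by
      nth_rewrite 1 [ysum]
      rw [mul_add, yPm, yP0, add_zero]
    have r1 : rk (y * Pm h) ≤ m := by
      rw [hm]
      refine rk_le_of_range fun v => ?_
      rw [e1, mul_assoc, Module.End.mul_apply]
      exact hp2 _
    have r2 : rk (y * P0 h) = rk (y * Pm h) := by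
      rw [← adj_rk hndr (y * P0 h), hstm, hstP0, hst y m2, mul_neg, rk_neg, P0y]
    have r3 : rk y ≤ 2 * m := by
      have t1 := rk_add_le (y * Pm h) (y * P0 h)
      rw [← ysum] at t1
      omega
    by_contra h0
    have hy0 : y ≠ 0 := by
      intro h1
      apply h0
      rw [← e1, h1, zero_mul]
    exact absurd r3 (by
      have := hcon y m2 hy0
      omega)
  have hPN : P * N = 0 := by rw [← hhN, ← mul_assoc, hPh, zero_mul]
  have key2 : ∀ z ∈ 𝔥, P * z * N = 0 := by
    intro z hz
    have h1 := key _ (hbr _ hN _ hz)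
    have h2 : P * (N * z - z * N) * Pm h = (P * N) * z * Pm h - P * z * (N * Pm h) := by
      noncomm_ring
    rw [h2, hPN, hNPm, zero_mul, zero_mul, zero_sub, neg_eq_zero] at h1
    exact h1
  have key3 : ∀ z ∈ 𝔥, P * z * Pp h = 0 := by
    intro z hz
    refine LinearMap.ext fun v => ?_
    obtain ⟨w, hw⟩ := hrange (Pp h v) (LinearMap.congr_fun (h_Pp h3) v)
    rw [Module.End.mul_apply, hw, ← Module.End.mul_apply, key2 z hz]
    rfl
  have key4 : ∀ z ∈ 𝔥, h * z * adj ω hndr P = 0 := by
    intro z hz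
    have h1 : P * z * h = 0 := by
      have h2 : P * z * h = P * z * Pp h - P * z * Pm h := by
        rw [← mul_sub, Pp_sub_Pm]
      rw [h2, key z hz, key3 z hz, sub_zero]
    have h2 : adj ω hndr (P * z * h) = 0 := by rw [h1, map_zero]
    rw [hstm, hstm, hst z hz, hst h hh] at h2
    have h3 : -h * (-z * adj ω hndr P) = h * z * adj ω hndr P := by noncomm_ring
    rwa [h3] at h2
  have key5 : h * adj ω hndr P = 0 := by
    have h2 : adj ω hndr (P * h) = 0 := by rw [hPh, map_zero]
    rw [hstm, hst h hh, neg_mul, neg_eq_zero] at h2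
    exact h2
  have h6 : adj ω hndr P = 0 := by
    refine LinearMap.ext fun v => ?_
    refine no_invisible hbr hirr hN0 hh hhN h3 (LinearMap.congr_fun key5 v) fun z hz => ?_
    exact LinearMap.congr_fun (key4 z hz) v
  have h7 : P = 0 := by
    apply rk_eq_zero
    rw [← adj_rk hndr, h6]
    exact rk_zero
  apply hα0
  rw [eq_bot_iff]
  intro w hw
  rw [Submodule.mem_bot, ← hp1 w hw, h7]
  rfl

end main

end

end Pool.Agent.Y126.JP
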