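import Mathlib
import Pool.Agent.Y126.JP.Frob

/-!
# Lie algebras normalized by an operator with few coincidences between ratios of eigenvalues
-/

set_option linter.unusedSectionVars false

namespace Pool.Agent.Y126.JP

open Module LinearMap Polynomial Pool.Agent.W548.Odd Pool.Agent.Y91.JP

noncomputable section

variable {K : Type} [Field K] [CharZero K] {V : Type} [AddCommGroup V] [Module K V]
  [FiniteDimensional K V]

section semisimple

variable {F F' : End K V}

theorem inv_semisimple (hF : F.IsSemisimple) (hFF : F * F' = 1) (hFF' : F' * F = 1) :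
    F'.IsSemisimple := by
  have key : ∀ {A B : End K V}, A * B = 1 → ∀ p : Submodule K V, p ∈ A.invtSubmodule →
      p ∈ B.invtSubmodule := by
    intro A B hAB p hp
    have hinj : Function.Injective A := by
      have h2 : B * A = 1 := mul_eq_one_comm.1 hAB
      exact Function.LeftInverse.injective (g := B) fun v => LinearMap.congr_fun h2 v
    have h1 : p.map A = p := by
      refine Submodule.eq_of_le_of_finrank_le ?_ ?_
      · rintro _ ⟨u, hu, rfl⟩
        exact hp hu
      · exact (LinearEquiv.finrank_eq (Submodule.equivMapOfInjective A hinj p)).le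
    intro v hv
    rw [← h1] at hv
    obtain ⟨u, hu, rfl⟩ := hv
    have h3 : B (A u) = u := LinearMap.congr_fun (mul_eq_one_comm.1 hAB) u
    change B (A u) ∈ p
    rw [h3]
    exact hu
  rw [Module.End.isSemisimple_iff] at hF ⊢
  intro p hp
  obtain ⟨q, hq, hpq⟩ := hF p (key hFF' p hp)
  exact ⟨q, key hFF q hq, hpq⟩

theorem mulLeft_semisimple (hF : F.IsSemisimple) :
    Module.End.IsSemisimple (LinearMap.mulLeft K F : End K (End K V)) := by
  refine Module.End.isSemisimple_of_squarefree_aeval_eq_zero hF.minpoly_squarefree ?_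
  have h1 : aeval (LinearMap.mulLeft K F : End K (End K V)) (minpoly K F) =
      Algebra.lmul K (End K V) (aeval F (minpoly K F)) :=
    aeval_algHom_apply (Algebra.lmul K (End K V)) F (minpoly K F)
  rw [h1, minpoly.aeval, map_zero]

theorem mulRight_semisimple (hF : F.IsSemisimple) :
    Module.End.IsSemisimple (LinearMap.mulRight K F : End K (End K V)) := by
  refine Module.End.isSemisimple_of_squarefree_aeval_eq_zero hF.minpoly_squarefree ?_
  have h1 : ∀ p : K[X], aeval (LinearMap.mulRight K F : End K (End K V)) p =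
      LinearMap.mulRight K (aeval F p) := by
    intro p
    induction p using Polynomial.induction_on' with
    | add p q hp hq =>
      rw [map_add, hp, hq, map_add]
      refine LinearMap.ext fun y => ?_
      change y * aeval F p + y * aeval F q = y * (aeval F p + aeval F q)
      rw [mul_add]
    | monomial n a =>
      rw [aeval_monomial, aeval_monomial, LinearMap.pow_mulRight]
      refine LinearMap.ext fun y => ?_
      change a • (y * F ^ n) = y * (algebraMap K (End K V) a * F ^ n)
      rw [Algebra.algebraMap_eq_smul_one, smul_mul_assoc, one_mul, mul_smul_comm]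
  rw [h1, minpoly.aeval]
  refine LinearMap.ext fun y => ?_
  change y * 0 = 0
  rw [mul_zero]

theorem Ad_semisimple (hF : F.IsSemisimple) (hFF : F * F' = 1) (hFF' : F' * F = 1) :
    (Ad F F').IsSemisimple := by
  refine Module.End.IsSemisimple.mul_of_commute ?_ (mulLeft_semisimple hF)
    (mulRight_semisimple (inv_semisimple hF hFF hFF'))
  refine LinearMap.ext fun y => ?_
  change F * (y * F') = F * y * F'
  rw [mul_assoc]

variable [IsAlgClosed K] {J : Submodule K (End K V)}

/-- A subspace of operators, stable under conjugation, either preserves an eigenspace of `F` or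
contains an eigenvector of the conjugation that moves it. -/
theorem exists_move (hF : F.IsSemisimple) (hFF : F * F' = 1) (hFF' : F' * F = 1)
    (hJ : ∀ y ∈ J, F * y * F' ∈ J) {a : K} (hmove : ∃ y ∈ J, ∃ v, F v = a • v ∧
      F (y v) ≠ a • y v) :
    ∃ z ∈ J, z ≠ 0 ∧ ∃ b : K, F * z * F' = b • z ∧ b ≠ 1 ∧ ∃ v, F v = a • v ∧ z v ≠ 0 := by
  by_contra hcon
  push Not at hcon
  obtain ⟨y, hy, v, hv, hyv⟩ := hmove
  apply hyv
  have hJ' : ∀ x ∈ J, Ad F F' x ∈ J := fun x hx => by rw [Ad_apply]; exact hJ x hx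
  have h1 := Submodule.eq_iSup_inf_genEigenspace 1 hJ'
    (Ad_semisimple hF hFF hFF').iSup_eigenspace_eq_top
  rw [h1] at hy
  clear hyv
  refine Submodule.iSup_induction' (fun b => J ⊓ (Ad F F').genEigenspace b 1)
    (motive := fun y _ => F (y v) = a • y v) ?_ ?_ ?_ hy
  · rintro b z ⟨hz, hzb⟩
    have h2 : F * z * F' = b • z := by
      rw [← Ad_apply]
      exact Module.End.mem_eigenspace_iff.1 hzb
    by_cases hb : b = 1
    · have h3 : F * z = z * F := by
        calc F * z = F * z * (F' * F) := by rw [hFF', mul_one]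
        _ = F * z * F' * F := by noncomm_ring
        _ = z * F := by rw [h2, hb, one_smul]
      have h4 : F (z v) = z (F v) := LinearMap.congr_fun h3 v
      rw [h4, hv, map_smul]
    · by_cases hz0 : z = 0
      · rw [hz0, LinearMap.zero_apply, map_zero, smul_zero]
      · rw [hcon z hz hz0 b h2 hb v hv, map_zero, smul_zero]
  · rw [LinearMap.zero_apply, map_zero, smul_zero]
  · intro x y _ _ hx hy
    rw [LinearMap.add_apply, map_add, hx, hy, smul_add]

end semisimple

section ideals

variable {G I : Submodule K (End K V)} {st : End K V →ₗ[K] End K V}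
  (h : Pool.Agent.W548.Odd.Setup G st) (hs : Scal G)

include h hs in
/-- An operator that commutes with an ideal and kills a subspace stable under the commutant of the
ideal is zero. -/
theorem kill_zero {D₀ : End K V} (hD₀ : D₀ ∈ G) (hD₀2 : D₀ * D₀ = 1) (hI : IsIdl G I)
    {U : Submodule K V} (hU : ∀ z ∈ cen G I, ∀ u ∈ U, z u ∈ U) (hU0 : U ≠ ⊥) {v : End K V}
    (hv : ∀ z ∈ I, z * v = v * z) (hvu : ∀ u ∈ U, v u = 0) : v = 0 := by
  let Ps : Set (Submodule K V) := {P | U ≤ P ∧ ∀ z ∈ I, ∀ w ∈ P, z w ∈ P}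
  let W : Submodule K V := sInf Ps
  have hWle : ∀ P ∈ Ps, W ≤ P := fun P hP => sInf_le hP
  have hWr : U ≤ W := le_sInf fun P hP => hP.1
  have hWI : ∀ z ∈ I, ∀ w ∈ W, z w ∈ W := by
    intro z hz w hw
    simp only [W, Submodule.mem_sInf] at hw ⊢
    exact fun P hP => hP.2 z hz w (hw P hP)
  have hWc : ∀ z ∈ cen G I, ∀ w ∈ W, z w ∈ W := by
    intro z hz
    let P : Submodule K V := W ⊓ W.comap z
    have hP : P ∈ Ps := by
      refine ⟨fun w hw => ⟨hWr hw, hWr (hU z hz w hw)⟩, ?_⟩
      rintro x hx w ⟨hw1, hw2⟩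
      refine ⟨hWI x hx w hw1, ?_⟩
      change z (x w) ∈ W
      have : z (x w) = x (z w) := LinearMap.congr_fun (hz.2 x hx) w
      rw [this]
      exact hWI x hx _ hw2
    exact fun w hw => (hWle P hP hw).2
  have hWt : W = ⊤ := by
    refine irr_top h hs (fun y hy w hw => ?_) ?_
    · obtain ⟨a, ha, b, hb, rfl⟩ := idl_decomp h hs hD₀ hD₀2 hI hy
      exact W.add_mem (hWI a ha w hw) (hWc b hb w hw)
    · intro h0
      rw [h0, le_bot_iff] at hWr
      exact hU0 hWr
  have hker : LinearMap.ker v ∈ Ps := by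
    refine ⟨hvu, ?_⟩
    intro z hz w hw
    rw [LinearMap.mem_ker] at hw ⊢
    have : v (z w) = z (v w) := (LinearMap.congr_fun (hv z hz) w).symm
    rw [this, hw, map_zero]
  have h1 := hWle _ hker
  rw [hWt, top_le_iff] at h1
  exact LinearMap.ker_eq_top.1 h1

theorem gn_neg {D : End K V} : gn G (-D) = gn G D := by
  unfold gn
  congr 1
  ext I
  exact and_congr_right fun _ => Submodule.neg_mem_iff _

/-- The upper component of an element with respect to an involution. -/
theorem exists_up {E z : End K V} (hEz : E * z ≠ z * E) :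
    ∃ D, (D = E ∨ D = -E) ∧ (1 + D) * z * (1 - D) ≠ 0 := by
  by_contra hcon
  push Not at hcon
  have h1 := hcon E (Or.inl rfl)
  have h2 := hcon (-E) (Or.inr rfl)
  apply hEz
  have e3 : (2 : K) • (E * z - z * E) = 0 := by
    have : (2 : K) • (E * z - z * E) =
        (1 + E) * z * (1 - E) - (1 + -E) * z * (1 - -E) := by
      rw [two_smul]
      noncomm_ring
    rw [this, h1, h2, sub_zero]
  exact sub_eq_zero.1 ((smul_eq_zero.1 e3).resolve_left two_ne_zero)

theorem rk_conj_le (a b z : End K V) : rk (a * z * b) ≤ rk z :=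
  (rk_mul_le_left _ _).trans (rk_mul_le_right _ _)

include h in
theorem up_mem {D z : End K V} (hD : D ∈ G) (hD2 : D * D = 1) (hz : z ∈ G) :
    (1 + D) * z * (1 - D) ∈ Kp G D :=
  ⟨h.idl.up hD hD2 hz, up_left hD2 _, up_right hD2 _⟩

include h hs in
/-- Two commuting ideals cannot both contain elements of small rank. -/
theorem no_two [IsAlgClosed K] {D D' u u' : End K V} (hD : D ∈ G) (hD2 : D * D = 1)
    (hu : u ∈ Kp G D) (hu0 : u ≠ 0) (hD' : D' ∈ cen G (gn G D)) (hD'2 : D' * D' = 1)
    (hu' : u' ∈ Kp G D') (hu'0 : u' ≠ 0) : finrank K V ≤ rk u * rk u' := by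
  obtain ⟨f, hf, hufu, -⟩ := kp_partner h hD hD2 hu
  obtain ⟨f', hf', hufu', -⟩ := kp_partner h hD'.1 hD'2 hu'
  have hC := cen_idl h (gn_idl h hD)
  have hf'2 := mem_Kn.1 hf'
  have h1 := rk_dvd h hs hD hD2 hu hf hufu (idl_of_pos hC hD' hu'.1 hu'.2.1 hu'.2.2)
    (idl_of_neg hC hD' hf'2.1 hf'2.2.1 hf'2.2.2) hufu'
  exact Nat.le_of_dvd (Nat.mul_pos (rk_pos_of_ne hu0) (rk_pos_of_ne hu'0)) h1

end ideals

section ratios

variable {G : Submodule K (End K V)} {st : End K V →ₗ[K] End K V}
  (h : Pool.Agent.W548.Odd.Setup G st) (hs : Scal G) {F F' : End K V}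

/-- Conjugation of the upper component. -/
theorem up_conj (hFF : F * F' = 1) (hFF' : F' * F = 1) {D z : End K V} {b : K}
    (hz : F * z * F' = b • z) :
    b • ((1 + F * D * F') * z * (1 - F * D * F')) = F * ((1 + D) * z * (1 - D)) * F' := by
  rw [← smul_mul_assoc, ← mul_smul_comm, ← hz, conj_mul hFF', conj_mul hFF']
  congr 1
  · congr 1
    rw [mul_add, add_mul, mul_one, hFF]
  · rw [mul_sub, sub_mul, mul_one, hFF]

include h in
theorem not_comm_exists (hs : Scal G) {z : End K V} (hz : z ∈ G) (hz0 : z ≠ 0) :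
    ∃ E ∈ G, E * E = 1 ∧ E * z ≠ z * E := by
  by_contra hcon
  push Not at hcon
  obtain ⟨s, hs'⟩ := hs z (comm_of_invol h hcon)
  by_cases hD : ∃ D ∈ G, D * D = 1
  · obtain ⟨D, hD, hD2⟩ := hD
    exact hz0 (scalar_zero h hD hD2 hz hs')
  · push Not at hD
    have h1 : G ≤ ⊥ := h.gen ⊥ (fun D hD' hD2 => absurd hD2 (hD D hD'))
      (fun y hy z hz => by
        rw [(Submodule.mem_bot K).1 hy, zero_mul, mul_zero, sub_zero]
        exact Submodule.zero_mem _)
    exact hz0 ((Submodule.mem_bot K).1 (h1 hz))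

variable [IsAlgClosed K]

include h hs in
/-- The conjugate of an involution outside the ideal generated by it. -/
theorem conj_case (hFF : F * F' = 1) (hFF' : F' * F = 1) {E z : End K V} {b : K} (hE : E ∈ G)
    (hE2 : E * E = 1) (hz : z ∈ G) (hEz : E * z ≠ z * E) (hFz : F * z * F' = b • z)
    (hEF : F * E * F' ∈ cen G (gn G E)) : finrank K V ≤ rk z * rk z := by
  obtain ⟨D, hD, hu⟩ := exists_up hEz
  have hDG : D ∈ G := by
    rcases hD with rfl | rfl
    · exact hE
    · exact G.neg_mem hE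
  have hD2 : D * D = 1 := by
    rcases hD with rfl | rfl
    · exact hE2
    · rw [neg_mul_neg, hE2]
  have hgn : gn G D = gn G E := by
    rcases hD with rfl | rfl
    · rfl
    · exact gn_neg
  have hDF : F * D * F' ∈ cen G (gn G D) := by
    rw [hgn]
    rcases hD with rfl | rfl
    · exact hEF
    · rw [mul_neg, neg_mul]
      exact Submodule.neg_mem _ hEF
  have hDF2 : (F * D * F') * (F * D * F') = 1 := by
    rw [← conj_mul hFF', hD2, mul_one, hFF]
  have hup := up_conj hFF hFF' (D := D) hFz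
  have hu' : (1 + F * D * F') * z * (1 - F * D * F') ≠ 0 := by
    intro h0
    rw [h0, smul_zero] at hup
    apply hu
    calc (1 + D) * z * (1 - D) = (F' * F) * ((1 + D) * z * (1 - D)) * (F' * F) := by
          rw [hFF', one_mul, mul_one]
    _ = F' * (F * ((1 + D) * z * (1 - D)) * F') * F := by noncomm_ring
    _ = 0 := by rw [← hup, mul_zero, zero_mul]
  exact (no_two h hs hDG hD2 (up_mem h hDG hD2 hz) hu hDF hDF2 (up_mem h hDF.1 hDF2 hz) hu').trans
    (Nat.mul_le_mul (rk_conj_le _ _ _) (rk_conj_le _ _ _))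

include h hs in
/-- **Simplicity**, from few coincidences of ratios of eigenvalues. -/
theorem simple_of_ratios (hF : F.IsSemisimple) (hFF : F * F' = 1) (hFF' : F' * F = 1)
    (hFG : ∀ y ∈ G, F * y * F' ∈ G) (hFG' : ∀ y ∈ G, F' * y * F ∈ G) {a : K}
    (ha : F.eigenspace a ≠ ⊥) {r : ℕ}
    (hr : ∀ a', a' ≠ a → F.eigenspace a' ≠ ⊥ → ∀ z : End K V, a • (F * z) = a' • (z * F) →
      rk z ≤ r) (hrr : r * r < finrank K V) {c₀ : K}
    (hodd : Odd (finrank K (F.maxGenEigenspace c₀))) {D : End K V} (hD : D ∈ G)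
    (hD2 : D * D = 1) :
    G ≤ gn G D ∧ ∃ z ∈ G, z ≠ 0 ∧ rk z ≤ r := by
  have ha0 : a ≠ 0 := by
    rintro rfl
    apply ha
    rw [eq_bot_iff]
    intro v hv
    rw [Module.End.mem_eigenspace_iff, zero_smul] at hv
    rw [Submodule.mem_bot, ← Module.End.one_apply (R := K) v, ← hFF', Module.End.mul_apply, hv,
      map_zero]
  have hF'a : ∀ v, F v = a • v → F' v = a⁻¹ • v := by
    intro v hv
    have h1 : v = a⁻¹ • F v := by rw [hv, smul_smul, inv_mul_cancel₀ ha0, one_smul]
    nth_rewrite 1 [h1]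
    rw [map_smul, ← Module.End.mul_apply, hFF', Module.End.one_apply]
  -- elements that move the eigenspace have small rank
  have key : ∀ {J : Submodule K (End K V)}, (∀ y ∈ J, F * y * F' ∈ J) →
      (∃ y ∈ J, ∃ v, F v = a • v ∧ F (y v) ≠ a • y v) →
      ∃ z ∈ J, z ≠ 0 ∧ (∃ b : K, b ≠ 0 ∧ F * z * F' = b • z) ∧ rk z ≤ r := by
    intro J hJ hmove
    obtain ⟨z, hz, hz0, b, hFz, hb, v, hv, hzv⟩ := exists_move hF hFF hFF' hJ hmove
    have hb0 : b ≠ 0 := by
      rintro rfl
      rw [zero_smul] at hFz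
      apply hz0
      calc z = (F' * F) * z * (F' * F) := by rw [hFF', one_mul, mul_one]
      _ = F' * (F * z * F') * F := by noncomm_ring
      _ = 0 := by rw [hFz, mul_zero, zero_mul]
    have hFz' : F * z = b • (z * F) := by
      calc F * z = F * z * (F' * F) := by rw [hFF', mul_one]
      _ = (F * z * F') * F := by noncomm_ring
      _ = b • (z * F) := by rw [hFz, smul_mul_assoc]
    refine ⟨z, hz, hz0, ⟨b, hb0, hFz⟩, hr (b * a) ?_ ?_ z ?_⟩
    · intro h1
      exact hb (mul_right_cancel₀ ha0 (h1.trans (one_mul a).symm))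
    · intro h1
      apply hzv
      have h2 : z v ∈ F.eigenspace (b * a) := by
        rw [Module.End.mem_eigenspace_iff]
        have h3 : F (z v) = b • z (F v) := LinearMap.congr_fun hFz' v
        rw [h3, hv, map_smul, smul_smul]
      rwa [h1, Submodule.mem_bot] at h2
    · rw [hFz', smul_smul, mul_comm]
  -- the first element
  have hmoveG : ∃ y ∈ G, ∃ v, F v = a • v ∧ F (y v) ≠ a • y v := by
    by_contra hcon
    push Not at hcon
    have h1 : F.eigenspace a = ⊤ := by
      refine irr_top h hs (fun y hy v hv => ?_) ha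
      rw [Module.End.mem_eigenspace_iff] at hv ⊢
      exact hcon y hy v hv
    have h2 : ∀ v, F v = a • v := fun v => by
      rw [← Module.End.mem_eigenspace_iff, h1]
      trivial
    have h3 := even_mult h hs h.idl hD hD2 (y := F) (fun z _ => LinearMap.ext fun v => by
      rw [Module.End.mul_apply, Module.End.mul_apply, h2, h2, map_smul]) c₀
    exact (Nat.not_even_iff_odd.2 hodd) h3
  obtain ⟨z, hz, hz0, ⟨b, hb0, hFz⟩, hzr⟩ := key hFG hmoveG
  refine ⟨?_, z, hz, hz0, hzr⟩
  have hrk : ¬finrank K V ≤ rk z * rk z := fun h1 =>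
    absurd (h1.trans (Nat.mul_le_mul hzr hzr)) (not_le.2 hrr)
  by_contra hgn
  obtain ⟨E, hE, hE2, hEz⟩ := not_comm_exists h hs hz hz0
  have hI := gn_idl h hE
  have hC := cen_idl h hI
  have hgnE : ¬G ≤ gn G E := by
    intro h0
    have hJ := gn_idl h hD
    rcases invol_dich h hs hJ hE hE2 with h1 | h1
    · exact hgn (h0.trans (gn_le hJ h1))
    · have h2 : G ≤ cen G (gn G D) := h0.trans (gn_le (cen_idl h hJ) h1)
      have h3 : D = 0 := central_zero h hs hD hD2 hD fun z hz => ((h2 hz).2 D mem_gn).symm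
      apply hz0
      rw [← mul_one z, ← hD2, h3, mul_zero, mul_zero]
  obtain ⟨D₁, hD₁, hD₁2⟩ := exists_invol_cen h hs hE hgnE
  have hF'z : F' * z * F = b⁻¹ • z := by
    calc F' * z * F = b⁻¹ • (F' * (b • z) * F) := by
          rw [mul_smul_comm, smul_mul_assoc, smul_smul, inv_mul_cancel₀ hb0, one_smul]
    _ = b⁻¹ • ((F' * F) * z * (F' * F)) := by
          rw [← hFz]
          simp only [mul_assoc]
    _ = b⁻¹ • z := by rw [hFF', one_mul, mul_one]
  -- the conjugates of `E` are in the ideal generated by `E`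
  have hEF : F * E * F' ∈ gn G E := by
    rcases invol_dich h hs hI (hFG E hE)
      (by rw [← conj_mul hFF', hE2, mul_one, hFF]) with h1 | h1
    · exact h1
    · exact absurd (conj_case h hs hFF hFF' hE hE2 hz hEz hFz h1) hrk
  have hEF' : F' * E * F ∈ gn G E := by
    rcases invol_dich h hs hI (hFG' E hE)
      (by rw [← conj_mul hFF, hE2, mul_one, hFF']) with h1 | h1
    · exact h1
    · exact absurd (conj_case h hs hFF' hFF hE hE2 hz hEz hF'z h1) hrk
  have hFI : ∀ y ∈ gn G E, F * y * F' ∈ gn G E := fun y hy =>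
    gn_le hI hEF (conj_gn hFF hFF' hFG hFG' hy)
  have hFI' : ∀ y ∈ gn G E, F' * y * F ∈ gn G E := fun y hy =>
    gn_le hI hEF' (conj_gn hFF' hFF hFG' hFG hy)
  have hFC : ∀ y ∈ cen G (gn G E), F * y * F' ∈ cen G (gn G E) := by
    rintro y ⟨hy, hyI⟩
    refine ⟨hFG y hy, fun w hw => ?_⟩
    have h2 := hyI _ (hFI' w hw)
    calc F * y * F' * w = F * (y * (F' * w * F)) * F' := by
          calc F * y * F' * w = F * y * F' * w * 1 := by rw [mul_one]
          _ = F * y * F' * w * (F * F') := by rw [hFF]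
          _ = _ := by noncomm_ring
    _ = F * ((F' * w * F) * y) * F' := by rw [h2]
    _ = (F * F') * w * (F * y * F') := by noncomm_ring
    _ = w * (F * y * F') := by rw [hFF, one_mul]
  by_cases hmove : ∃ y ∈ cen G (gn G E), ∃ v, F v = a • v ∧ F (y v) ≠ a • y v
  · obtain ⟨z', hz', hz'0, -, hz'r⟩ := key hFC hmove
    obtain ⟨E', hE', hE'2, hE'z⟩ := not_comm_exists h hs hz'.1 hz'0
    have hE'C : E' ∈ cen G (gn G E) := by
      rcases invol_dich h hs hI hE' hE'2 with h1 | h1
      · exact absurd (hz'.2 E' h1).symm hE'z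
      · exact h1
    obtain ⟨A, hA, hu⟩ := exists_up hEz
    obtain ⟨B, hB, hu'⟩ := exists_up hE'z
    have hAG : A ∈ G := by
      rcases hA with rfl | rfl
      · exact hE
      · exact G.neg_mem hE
    have hA2 : A * A = 1 := by
      rcases hA with rfl | rfl
      · exact hE2
      · rw [neg_mul_neg, hE2]
    have hAgn : gn G A = gn G E := by
      rcases hA with rfl | rfl
      · rfl
      · exact gn_neg
    have hBC : B ∈ cen G (gn G A) := by
      rw [hAgn]
      rcases hB with rfl | rfl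
      · exact hE'C
      · exact Submodule.neg_mem _ hE'C
    have hB2 : B * B = 1 := by
      rcases hB with rfl | rfl
      · exact hE'2
      · rw [neg_mul_neg, hE'2]
    have h1 := no_two h hs hAG hA2 (up_mem h hAG hA2 hz) hu hBC hB2 (up_mem h hBC.1 hB2 hz'.1) hu'
    have h2 : rk ((1 + A) * z * (1 - A)) * rk ((1 + B) * z' * (1 - B)) ≤ r * r :=
      Nat.mul_le_mul ((rk_conj_le _ _ _).trans hzr) ((rk_conj_le _ _ _).trans hz'r)
    exact absurd (h1.trans h2) (not_le.2 hrr)
  · push Not at hmove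
    have hcomm : ∀ y ∈ cen G (gn G E), F * y = y * F := by
      intro y hy
      have h1 : F * y * F' - y ∈ cen G (gn G E) := Submodule.sub_mem _ (hFC y hy) hy
      have h2 : F * y * F' - y = 0 := by
        refine kill_zero h hs hE hE2 hI (U := F.eigenspace a) (fun w hw v hv => ?_) ha
          (fun w hw => (h1.2 w hw).symm) fun v hv => ?_
        · rw [Module.End.mem_eigenspace_iff] at hv ⊢
          exact hmove w hw v hv
        · rw [Module.End.mem_eigenspace_iff] at hv
          rw [LinearMap.sub_apply, Module.End.mul_apply, Module.End.mul_apply, hF'a v hv,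
            map_smul, map_smul, hmove y hy v hv, smul_smul, inv_mul_cancel₀ ha0, one_smul,
            sub_self]
      calc F * y = F * y * (F' * F) := by rw [hFF', mul_one]
      _ = (F * y * F') * F := by noncomm_ring
      _ = y * F := by rw [sub_eq_zero.1 h2]
    have h1 := even_mult h hs hC hD₁ hD₁2 (y := F) hcomm c₀
    exact (Nat.not_even_iff_odd.2 hodd) h1

end ratios

section final

variable {ω : V →ₗ[K] V →ₗ[K] K} {𝔥 : Submodule K (End K V)}
  (hbr : ∀ X ∈ 𝔥, ∀ Y ∈ 𝔥, X * Y - Y * X ∈ 𝔥)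
  (hsp : ∀ y ∈ 𝔥, ∀ a b, ω (y a) b + ω a (y b) = 0)
  (hirr : ∀ W : Submodule K V, (∀ X ∈ 𝔥, X * X = (1 / 4 : K) • 1 → ∀ u ∈ W, X u ∈ W) →
    W = ⊥ ∨ W = ⊤)
  (halt : ∀ v, ω v v = 0) (hndl : ∀ u, (∀ v, ω u v = 0) → u = 0)
  (hndr : ∀ w, (∀ v, ω v w = 0) → w = 0) {F F' : End K V}

include hbr hsp hirr halt hndl hndr in
/-- **Rank one elements** from few coincidences of ratios of eigenvalues. -/
theorem rank_one_of_ratios [IsAlgClosed K] (hF : F.IsSemisimple) (hFF : F * F' = 1)
    (hFF' : F' * F = 1) (hFG : ∀ y ∈ 𝔥, F * y * F' ∈ 𝔥) (hFG' : ∀ y ∈ 𝔥, F' * y * F ∈ 𝔥) {a : K}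
    (ha : F.eigenspace a ≠ ⊥) {r : ℕ}
    (hr : ∀ a', a' ≠ a → F.eigenspace a' ≠ ⊥ → ∀ z : End K V, a • (F * z) = a' • (z * F) →
      rk z ≤ r) (hrr : r * r < finrank K V) (hr4 : 4 * r < finrank K V) {c₀ : K}
    (hodd : Odd (finrank K (F.maxGenEigenspace c₀))) {D : End K V} (hD : D ∈ 𝔥)
    (hD2 : D * D = 1) : ∃ e ∈ 𝔥, rk e = 1 := by
  have h := setup hbr hsp hirr hndl hndr
  have hs := scal hirr
  obtain ⟨-, z, hz, hz0, hzr⟩ := simple_of_ratios h hs hF hFF hFF' hFG hFG' ha hr hrr hodd hD hD2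
  exact exists_rank_one_small hbr hsp hirr halt hndl hndr
    (fun D hD hD2 => (simple_of_ratios h hs hF hFF hFF' hFG hFG' ha hr hrr hodd hD hD2).1) hz hz0
    (Or.inl ((Nat.mul_le_mul_left 4 hzr).trans_lt hr4))

end final

end

end Pool.Agent.Y126.JP
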