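import Mathlib
import Pool.Agent.Y126.JP.Ratio

/-!
# Lie algebras normalized by a diagonalizable operator
-/

set_option linter.unusedSectionVars false

namespace Pool.Agent.Y126.JP

open Module LinearMap Polynomial Pool.Agent.W548.Odd Pool.Agent.Y91.JP

noncomputable section

variable {K : Type} [Field K] [CharZero K] {V : Type} [AddCommGroup V] [Module K V]
  [FiniteDimensional K V]

section diag

variable {n : ℕ} {b : Basis (Fin n) K V} {a : Fin n → Kˣ} {F F' : End K V}
  (hF : ∀ i, F (b i) = (a i : K) • b i) (hFF : F * F' = 1) (hFF' : F' * F = 1)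

/-- The projection on a coordinate line. -/
def cp (b : Basis (Fin n) K V) (i : Fin n) : End K V := (b.coord i).smulRight (b i)

theorem cp_apply (i : Fin n) (v : V) : cp b i v = b.repr v i • b i := rfl

theorem cp_sum : ∑ i, cp b i = 1 := by
  refine LinearMap.ext fun v => ?_
  rw [LinearMap.sum_apply, Module.End.one_apply]
  exact b.sum_repr v

include hF in
theorem F_cp (i : Fin n) : F * cp b i = (a i : K) • cp b i := by
  refine LinearMap.ext fun v => ?_
  rw [Module.End.mul_apply, cp_apply, map_smul, hF, LinearMap.smul_apply, cp_apply, smul_comm]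

include hF in
theorem cp_F (i : Fin n) : cp b i * F = (a i : K) • cp b i := by
  refine b.ext fun j => ?_
  rw [Module.End.mul_apply, hF, map_smul, LinearMap.smul_apply, cp_apply, Basis.repr_self]
  by_cases h : j = i
  · rw [h]
  · rw [Finsupp.single_eq_of_ne (Ne.symm h), zero_smul, smul_zero, smul_zero]

include hF hFF in
theorem cp_F' (i : Fin n) : cp b i * F' = ((a i)⁻¹ : Kˣ) • cp b i := by
  have h1 : cp b i = (a i : K) • (cp b i * F') := by
    calc cp b i = cp b i * (F * F') := by rw [hFF, mul_one]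
    _ = (cp b i * F) * F' := by rw [mul_assoc]
    _ = (a i : K) • (cp b i * F') := by rw [cp_F hF, smul_mul_assoc]
  have h2 : ((a i)⁻¹ : Kˣ) • cp b i = ((a i)⁻¹ : Kˣ) • ((a i : K) • (cp b i * F')) := by rw [← h1]
  rw [h2, Units.smul_def, smul_smul, Units.inv_mul, one_smul]

include hF hFF in
/-- The conjugation is diagonalizable. -/
theorem ad_top : ⨆ μ, (Ad F F').genEigenspace μ 1 = ⊤ := by
  rw [eq_top_iff]
  intro y _
  have h1 : y = ∑ i, ∑ j, cp b i * y * cp b j := by
    calc y = (∑ i, cp b i) * y * ∑ j, cp b j := by rw [cp_sum, one_mul, mul_one]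
    _ = _ := by rw [Finset.sum_mul, Finset.sum_mul_sum]
  rw [h1]
  refine Submodule.sum_mem _ fun i _ => Submodule.sum_mem _ fun j _ => ?_
  refine Submodule.mem_iSup_of_mem ((a i : K) * ((a j)⁻¹ : Kˣ)) ?_
  change _ ∈ (Ad F F').eigenspace _
  rw [Module.End.mem_eigenspace_iff, Ad_apply]
  calc F * (cp b i * y * cp b j) * F' = (F * cp b i) * y * (cp b j * F') := by noncomm_ring
  _ = _ := by
    rw [F_cp hF, cp_F' hF hFF, Units.smul_def, smul_mul_assoc, smul_mul_assoc, mul_smul_comm,
      smul_smul]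

variable {J : Submodule K (End K V)}

include hF hFF hFF' in
/-- Induction on the weights. -/
theorem ind_weights (hJ : ∀ y ∈ J, F * y * F' ∈ J) {P : End K V → Prop} (h0 : P 0)
    (hadd : ∀ x y, P x → P y → P (x + y))
    (hz : ∀ z ∈ J, ∀ β : Kˣ, F * z * F' = (β : K) • z → P z) {y : End K V} (hy : y ∈ J) : P y := by
  have hJ' : ∀ x ∈ J, Ad F F' x ∈ J := fun x hx => by rw [Ad_apply]; exact hJ x hx
  have h1 := Submodule.eq_iSup_inf_genEigenspace 1 hJ' (ad_top hF hFF)
  rw [h1] at hy
  refine Submodule.iSup_induction' (fun β => J ⊓ (Ad F F').genEigenspace β 1)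
    (motive := fun y _ => P y) ?_ h0 (fun x y _ _ hx hy => hadd x y hx hy) hy
  rintro β z ⟨hz1, hz2⟩
  have h2 : F * z * F' = β • z := by
    rw [← Ad_apply]
    exact Module.End.mem_eigenspace_iff.1 hz2
  by_cases hβ : β = 0
  · have h3 : z = 0 := by
      rw [hβ, zero_smul] at h2
      calc z = (F' * F) * z * (F' * F) := by rw [hFF', one_mul, mul_one]
      _ = F' * (F * z * F') * F := by noncomm_ring
      _ = 0 := by rw [h2, mul_zero, zero_mul]
    rw [h3]
    exact h0
  · exact hz z hz1 (Units.mk0 β hβ) h2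

include hF hFF' in
/-- The coordinates of the image of a basis vector. -/
theorem coord_ne {z : End K V} {β : Kˣ} (hz : F * z * F' = (β : K) • z) {i j : Fin n}
    (hne : b.repr (z (b i)) j ≠ 0) : a j = β * a i := by
  have hFz : F * z = (β : K) • (z * F) := by
    calc F * z = F * z * (F' * F) := by rw [hFF', mul_one]
    _ = (F * z * F') * F := by noncomm_ring
    _ = (β : K) • (z * F) := by rw [hz, smul_mul_assoc]
  have h1 : F (z (b i)) = ((β : K) * a i) • z (b i) := by
    have h2 : F (z (b i)) = (β : K) • z (F (b i)) := LinearMap.congr_fun hFz (b i)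
    rw [h2, hF, map_smul, smul_smul]
  have h3 : cp b j (F (z (b i))) = (a j : K) • cp b j (z (b i)) := LinearMap.congr_fun (cp_F hF j) _
  rw [h1, map_smul, cp_apply, smul_smul, smul_smul] at h3
  have h4 := congrArg (fun v => b.repr v j) h3
  simp only [map_smul, Finsupp.smul_apply, Basis.repr_self, Finsupp.single_eq_same, smul_eq_mul,
    mul_one] at h4
  exact (Units.ext (mul_right_cancel₀ hne h4)).symm

end diag

section ideals

variable {G : Submodule K (End K V)} {st : End K V →ₗ[K] End K V}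
  (h : Pool.Agent.W548.Odd.Setup G st) (hs : Scal G) {n : ℕ} {b : Basis (Fin n) K V}
  {a : Fin n → Kˣ} {F F' : End K V} (hF : ∀ i, F (b i) = (a i : K) • b i) (hFF : F * F' = 1)
  (hFF' : F' * F = 1) {J : Submodule K (End K V)}

include h hs hF hFF hFF' in
/-- If the elements of weight outside of a subgroup kill a nonzero vector then they are zero. -/
theorem zero_of_kill {D₀ : End K V} (hD₀ : D₀ ∈ G) (hD₀2 : D₀ * D₀ = 1) (hJ : IsIdl G J)
    (hJF : ∀ y ∈ J, F * y * F' ∈ J) (W : Subgroup Kˣ) {v : V} (hv : v ≠ 0)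
    (hkill : ∀ z ∈ J, ∀ β : Kˣ, β ∉ W → F * z * F' = (β : K) • z → z v = 0) :
    ∀ z ∈ J, ∀ β : Kˣ, β ∉ W → F * z * F' = (β : K) • z → z = 0 := by
  let M : Submodule K V :=
    { carrier := {u | ∀ z ∈ J, ∀ β : Kˣ, β ∉ W → F * z * F' = (β : K) • z → z u = 0}
      zero_mem' := fun z _ β _ _ => map_zero z
      add_mem' := fun {u u'} hu hu' z hz β hβ hzβ => by
        rw [map_add, hu z hz β hβ hzβ, hu' z hz β hβ hzβ, add_zero]
      smul_mem' := fun t u hu z hz β hβ hzβ => by
        rw [map_smul, hu z hz β hβ hzβ, smul_zero] }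
  have hM : M = ⊤ := by
    refine irr_top h hs ?_ ?_
    · rintro y hy u hu z hz β hβ hzβ
      obtain ⟨j, hj, c, hc, rfl⟩ := idl_decomp h hs hD₀ hD₀2 hJ hy
      have h1 : z (c u) = c (z u) := (LinearMap.congr_fun (hc.2 z hz) u).symm
      rw [LinearMap.add_apply, map_add, h1, hu z hz β hβ hzβ, map_zero, add_zero]
      refine ind_weights hF hFF hFF' hJF (P := fun j => z (j u) = 0) ?_ ?_ ?_ hj
      · rw [LinearMap.zero_apply, map_zero]
      · intro x y hx hy
        rw [LinearMap.add_apply, map_add, hx, hy, add_zero]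
      · intro j hj γ hγ
        by_cases hγW : γ ∈ W
        · have h2 : (z * j - j * z) u = 0 := by
            refine hu _ (hJ.br z (hJ.le hz) j hj) (β * γ) ?_ ?_
            · intro h3
              exact hβ ((Subgroup.mul_mem_cancel_right W hγW).1 h3)
            · calc F * (z * j - j * z) * F' = F * (z * j) * F' - F * (j * z) * F' := by
                    noncomm_ring
              _ = _ := by
                rw [conj_mul hFF', conj_mul hFF', hzβ, hγ, smul_mul_assoc, mul_smul_comm,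
                  smul_mul_assoc, mul_smul_comm, smul_smul, smul_smul, mul_comm (γ : K),
                  ← smul_sub, Units.val_mul]
          have h3 : z (j u) = (z * j - j * z) u + j (z u) := by
            rw [LinearMap.sub_apply, Module.End.mul_apply, Module.End.mul_apply, sub_add_cancel]
          rw [h3, h2, hu z hz β hβ hzβ, map_zero, add_zero]
        · rw [hu j hj γ hγW hγ, map_zero]
    · intro h0
      apply hv
      have h1 : v ∈ M := hkill
      rwa [h0, Submodule.mem_bot] at h1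
  intro z hz β hβ hzβ
  refine LinearMap.ext fun u => ?_
  have h1 : u ∈ M := by rw [hM]; trivial
  exact h1 z hz β hβ hzβ

include h hs in
/-- **The rank of an idempotent that commutes with an ideal containing an involution is even.** -/
theorem even_idem (hJ : IsIdl G J) {D e : End K V} (hD : D ∈ J) (hD2 : D * D = 1)
    (hee : e * e = e) (hec : ∀ z ∈ J, e * z = z * e) : Even (rk e) := by
  have hDe : trace K V (D * e) = 0 := by
    have h1 := invol_br h hs hJ hD hD2
    clear hD2 hD
    induction h1 using Submodule.span_induction with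
    | mem x hx =>
      obtain ⟨a, -, b, hb, rfl⟩ := hx
      have e1 : (a * b - b * a) * e = a * b * e - b * (a * e) := by noncomm_ring
      rw [e1, map_sub, LinearMap.trace_mul_comm K b, mul_assoc a e, hec b hb, mul_assoc, sub_self]
    | zero => rw [zero_mul, map_zero]
    | add a b _ _ ha hb => rw [add_mul, map_add, ha, hb, add_zero]
    | smul t a _ ha => rw [smul_mul_assoc, map_smul, ha, smul_zero]
  have hDec := hec D hD
  obtain ⟨q, hq⟩ : ∃ q, q = (1 / 2 : K) • ((1 + D) * e) := ⟨_, rfl⟩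
  have hqq : q * q = q := by
    have e1 : (1 + D) * e * ((1 + D) * e) = (2 : K) • ((1 + D) * e) := by
      calc (1 + D) * e * ((1 + D) * e) = (1 + D) * (e + e * D) * e := by noncomm_ring
      _ = (1 + D) * (e + D * e) * e := by rw [hDec]
      _ = (1 + D + D + D * D) * (e * e) := by noncomm_ring
      _ = (2 : K) • ((1 + D) * e) := by
        rw [hD2, hee, two_smul]
        noncomm_ring
    rw [hq, smul_mul_assoc, mul_smul_comm, e1, smul_smul, smul_smul]
    norm_num
  have htq : trace K V q = (1 / 2 : K) * trace K V e := by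
    rw [hq, map_smul, add_mul, one_mul, map_add, hDe, add_zero, smul_eq_mul]
  rw [Pool.Agent.Y91.JP.trace_idem hqq, Pool.Agent.Y91.JP.trace_idem hee] at htq
  have h2 : ((2 * rk q : ℕ) : K) = (rk e : ℕ) := by
    push_cast
    rw [htq]
    ring
  have h3 : 2 * rk q = rk e := by exact_mod_cast h2
  exact ⟨rk q, by rw [← two_mul, h3]⟩

/-- The projection on the span of the vectors of the basis in a set. -/
def sp (b : Basis (Fin n) K V) (S : Set (Fin n)) : End K V :=
  open Classical in b.constr K fun i => if i ∈ S then b i else 0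

theorem sp_in {S : Set (Fin n)} {i : Fin n} (hi : i ∈ S) : sp b S (b i) = b i := by
  unfold sp
  rw [Basis.constr_basis, if_pos hi]

theorem sp_out {S : Set (Fin n)} {i : Fin n} (hi : i ∉ S) : sp b S (b i) = 0 := by
  unfold sp
  rw [Basis.constr_basis, if_neg hi]

theorem sp_idem (S : Set (Fin n)) : sp b S * sp b S = sp b S := by
  refine b.ext fun i => ?_
  rw [Module.End.mul_apply]
  by_cases hi : i ∈ S
  · rw [sp_in hi, sp_in hi]
  · rw [sp_out hi, map_zero]

theorem sp_rk (S : Set (Fin n)) : rk (sp b S) = Nat.card S := by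
  classical
  have h1 : ((rk (sp b S) : ℕ) : K) = ((Nat.card S : ℕ) : K) := by
    rw [← Pool.Agent.Y91.JP.trace_idem (sp_idem (b := b) S), LinearMap.trace_eq_matrix_trace K b,
      Matrix.trace]
    have h2 : ∀ i, (LinearMap.toMatrix b b (sp b S)).diag i = if i ∈ S then (1 : K) else 0 := by
      intro i
      rw [Matrix.diag_apply, LinearMap.toMatrix_apply]
      by_cases hi : i ∈ S
      · rw [sp_in hi, if_pos hi, Basis.repr_self, Finsupp.single_eq_same]
      · rw [sp_out hi, if_neg hi, map_zero, Finsupp.zero_apply]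
    simp_rw [h2]
    rw [Finset.sum_boole, Nat.card_eq_fintype_card, Fintype.card_subtype]
  exact_mod_cast h1

include hF hFF hFF' in
/-- The projections for the cosets of a subgroup that contains all weights. -/
theorem sp_comm (hJF : ∀ y ∈ J, F * y * F' ∈ J) {H : Subgroup Kˣ}
    (hmem : ∀ z ∈ J, ∀ β : Kˣ, F * z * F' = (β : K) • z → z ≠ 0 → β ∈ H) (t : Kˣ) {z : End K V}
    (hz : z ∈ J) : sp b {i | a i / t ∈ H} * z = z * sp b {i | a i / t ∈ H} := by
  refine ind_weights hF hFF hFF' hJF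
    (P := fun z => sp b {i | a i / t ∈ H} * z = z * sp b {i | a i / t ∈ H}) ?_ ?_ ?_ hz
  · rw [mul_zero, zero_mul]
  · intro x y hx hy
    rw [mul_add, add_mul, hx, hy]
  · intro z hz β hzβ
    by_cases hz0 : z = 0
    · rw [hz0, mul_zero, zero_mul]
    have hβ := hmem z hz β hzβ hz0
    have key : ∀ i j, b.repr (z (b i)) j ≠ 0 → (a j / t ∈ H ↔ a i / t ∈ H) := by
      intro i j hne
      rw [coord_ne hF hFF' hzβ hne, mul_div_assoc]
      exact Subgroup.mul_mem_cancel_left H hβ
    refine b.ext fun i => ?_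
    rw [Module.End.mul_apply, Module.End.mul_apply]
    have h2 : z (b i) = ∑ j, b.repr (z (b i)) j • b j := (b.sum_repr _).symm
    by_cases hi : a i / t ∈ H
    · rw [sp_in (S := {i | a i / t ∈ H}) hi]
      conv_lhs => rw [h2]
      conv_rhs => rw [h2]
      rw [map_sum]
      refine Finset.sum_congr rfl fun j _ => ?_
      rw [map_smul]
      by_cases hne : b.repr (z (b i)) j = 0
      · rw [hne, zero_smul, zero_smul]
      · rw [sp_in (S := {i | a i / t ∈ H}) ((key i j hne).2 hi)]
    · rw [sp_out (S := {i | a i / t ∈ H}) hi, map_zero]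
      conv_lhs => rw [h2]
      rw [map_sum]
      refine Finset.sum_eq_zero fun j _ => ?_
      rw [map_smul]
      by_cases hne : b.repr (z (b i)) j = 0
      · rw [hne, zero_smul]
      · rw [sp_out (S := {i | a i / t ∈ H}) (fun h3 => hi ((key i j hne).1 h3)), smul_zero]

include h hs hF hFF hFF' in
/-- **Parity**: the weights of an ideal that contains an involution cannot all be in `W`, if the
cosets of the saturated subgroups of `W` do not all contain an even number of eigenvalues. -/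
theorem parity (hJ : IsIdl G J) (hJF : ∀ y ∈ J, F * y * F' ∈ J) {D : End K V} (hD : D ∈ J)
    (hD2 : D * D = 1) {W : Subgroup Kˣ}
    (hW : ∀ z ∈ J, ∀ β : Kˣ, β ∉ W → F * z * F' = (β : K) • z → z = 0)
    (hodd : ∀ H : Subgroup Kˣ, H ≤ W →
      (∀ k, Subgroup.closure {x | x ∈ H ∧ ∃ j, x = a j / a k} = H) →
      ∃ t : Kˣ, Odd (Nat.card {i // a i / t ∈ H})) : False := by
  obtain ⟨H, hH⟩ : ∃ H : Subgroup Kˣ, H = Subgroup.closure
    {β : Kˣ | ∃ z ∈ J, z ≠ 0 ∧ F * z * F' = (β : K) • z} := ⟨_, rfl⟩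
  have hmem : ∀ z ∈ J, ∀ β : Kˣ, F * z * F' = (β : K) • z → z ≠ 0 → β ∈ H := by
    intro z hz β hzβ hz0
    rw [hH]
    exact Subgroup.subset_closure ⟨z, hz, hz0, hzβ⟩
  have hHW : H ≤ W := by
    rw [hH, Subgroup.closure_le]
    rintro β ⟨z, hz, hz0, hzβ⟩
    by_contra hβ
    exact hz0 (hW z hz β hβ hzβ)
  obtain ⟨t, ht⟩ := hodd H hHW fun k => by
    obtain ⟨Hk, hHk⟩ : ∃ Hk : Subgroup Kˣ, Hk =
      Subgroup.closure {x | x ∈ H ∧ ∃ j, x = a j / a k} := ⟨_, rfl⟩
    rw [← hHk]
    apply le_antisymm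
    · rw [hHk, Subgroup.closure_le]
      rintro x ⟨hx, -⟩
      exact hx
    · have h1 := zero_of_kill h hs hF hFF hFF' (hJ.le hD) hD2 hJ hJF Hk (b.ne_zero k)
        (fun z hz β hβ hzβ => by
          by_contra hzk
          obtain ⟨j, hj⟩ : ∃ j, b.repr (z (b k)) j ≠ 0 := by
            by_contra hcon
            push Not at hcon
            apply hzk
            rw [← b.repr.map_eq_zero_iff]
            exact Finsupp.ext hcon
          have h2 := coord_ne hF hFF' hzβ hj
          apply hβ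
          rw [hHk]
          refine Subgroup.subset_closure ⟨hmem z hz β hzβ ?_, j, ?_⟩
          · rintro rfl
            exact hzk rfl
          · rw [h2, mul_div_cancel_right])
      rw [hH, Subgroup.closure_le]
      rintro β ⟨z, hz, hz0, hzβ⟩
      by_contra hβ
      exact hz0 (h1 z hz β hβ hzβ)
  have h1 := even_idem h hs hJ hD hD2 (sp_idem (b := b) {i | a i / t ∈ H})
    (fun z hz => sp_comm hF hFF hFF' hJF hmem t hz)
  rw [sp_rk] at h1
  exact (Nat.not_even_iff_odd.2 ht) h1

include h hs in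
/-- **In dimensions not divisible by four the Lie algebra is simple.** -/
theorem simple_of_four (h4 : ¬4 ∣ finrank K V) {D : End K V} (hD : D ∈ G) (hD2 : D * D = 1) :
    G ≤ gn G D := by
  by_contra hgn
  obtain ⟨D', hD', hD'2⟩ := exists_invol_cen h hs hD hgn
  have hI := gn_idl h hD
  have htr : ∀ {J : Submodule K (End K V)}, IsIdl G J → ∀ {D : End K V}, D ∈ J → D * D = 1 →
      ∀ {e : End K V}, (∀ z ∈ J, e * z = z * e) → trace K V (D * e) = 0 := by
    intro J hJ D hD hD2 e hec
    have h1 := invol_br h hs hJ hD hD2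
    clear hD2 hD
    induction h1 using Submodule.span_induction with
    | mem x hx =>
      obtain ⟨a, -, b, hb, rfl⟩ := hx
      have e1 : (a * b - b * a) * e = a * b * e - b * (a * e) := by noncomm_ring
      rw [e1, map_sub, LinearMap.trace_mul_comm K b, mul_assoc a e, hec b hb, mul_assoc, sub_self]
    | zero => rw [zero_mul, map_zero]
    | add a b _ _ ha hb => rw [add_mul, map_add, ha, hb, add_zero]
    | smul t a _ ha => rw [smul_mul_assoc, map_smul, ha, smul_zero]
  have t1 : trace K V D = 0 := by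
    rw [← mul_one D]
    exact htr hI mem_gn hD2 fun z _ => by rw [one_mul, mul_one]
  have t2 : trace K V D' = 0 := by
    rw [← mul_one D']
    exact htr (cen_idl h hI) hD' hD'2 fun z _ => by rw [one_mul, mul_one]
  have t3 : trace K V (D * D') = 0 := htr hI mem_gn hD2 fun z hz => hD'.2 z hz
  have hc : D' * D = D * D' := hD'.2 D mem_gn
  obtain ⟨e, he⟩ : ∃ e, e = (1 / 4 : K) • ((1 + D) * (1 + D')) := ⟨_, rfl⟩
  have hee : e * e = e := by
    have e1 : (1 + D) * (1 + D') * ((1 + D) * (1 + D')) = (4 : K) • ((1 + D) * (1 + D')) := by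
      calc (1 + D) * (1 + D') * ((1 + D) * (1 + D')) =
          (1 + D) * (1 + D + D' + D' * D) * (1 + D') := by noncomm_ring
      _ = (1 + D) * (1 + D + D' + D * D') * (1 + D') := by rw [hc]
      _ = (1 + D + D + D * D) * (1 + D' + D' + D' * D') := by noncomm_ring
      _ = (4 : K) • ((1 + D) * (1 + D')) := by
        rw [hD2, hD'2]
        have e2 : (1 : End K V) + D + D + 1 = (2 : K) • (1 + D) := by module
        have e3 : (1 : End K V) + D' + D' + 1 = (2 : K) • (1 + D') := by module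
        rw [e2, e3, smul_mul_assoc, mul_smul_comm, smul_smul]
        norm_num
    rw [he, smul_mul_assoc, mul_smul_comm, e1, smul_smul, smul_smul]
    norm_num
  have hte : trace K V e = (1 / 4 : K) * (finrank K V : K) := by
    have e1 : (1 + D) * (1 + D') = 1 + D + D' + D * D' := by noncomm_ring
    rw [he, map_smul, e1, map_add, map_add, map_add, t1, t2, t3, LinearMap.trace_one]
    simp
  rw [Pool.Agent.Y91.JP.trace_idem hee] at hte
  apply h4
  have h2 : ((4 * rk e : ℕ) : K) = (finrank K V : ℕ) := by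
    push_cast
    rw [hte]
    ring
  exact ⟨rk e, (by exact_mod_cast h2.symm : finrank K V = 4 * rk e)⟩

include h hs hF hFF hFF' in
/-- Elements of small rank. -/
theorem exists_small_of_grading (hFG : ∀ y ∈ G, F * y * F' ∈ G) {D : End K V} (hD : D ∈ G)
    (hD2 : D * D = 1) {W : Subgroup Kˣ} {i₀ : Fin n} {r : ℕ}
    (hr : ∀ j, a j / a i₀ ∉ W → ∀ z : End K V, F * z * F' = ((a j / a i₀ : Kˣ) : K) • z →
      rk z ≤ r) (hne : ∃ j, a j / a i₀ ∉ W) : ∃ z ∈ G, z ≠ 0 ∧ rk z ≤ r := by
  by_contra hcon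
  have h1 := zero_of_kill h hs hF hFF hFF' hD hD2 h.idl hFG W (b.ne_zero i₀) (fun z hz β hβ hzβ => by
    by_contra hzk
    obtain ⟨j, hj⟩ : ∃ j, b.repr (z (b i₀)) j ≠ 0 := by
      by_contra hcon
      push Not at hcon
      apply hzk
      rw [← b.repr.map_eq_zero_iff]
      exact Finsupp.ext hcon
    have h2 : β = a j / a i₀ := by rw [coord_ne hF hFF' hzβ hj, mul_div_cancel_right]
    refine hcon ⟨z, hz, ?_, hr j (h2 ▸ hβ) z (h2 ▸ hzβ)⟩
    rintro rfl
    exact hzk rfl)
  have hmem : ∀ z ∈ G, ∀ β : Kˣ, F * z * F' = (β : K) • z → z ≠ 0 → β ∈ W := by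
    intro z hz β hzβ hz0
    by_contra hβ
    exact hz0 (h1 z hz β hβ hzβ)
  obtain ⟨s, hs'⟩ := hs (sp b {i | a i / a i₀ ∈ W}) fun z hz => sp_comm hF hFF hFF' hFG hmem _ hz
  obtain ⟨j, hj⟩ := hne
  have h2 : sp b {i | a i / a i₀ ∈ W} (b i₀) = b i₀ :=
    sp_in (S := {i | a i / a i₀ ∈ W}) (by
      change a i₀ / a i₀ ∈ W
      rw [div_self']
      exact W.one_mem)
  have h3 : sp b {i | a i / a i₀ ∈ W} (b j) = 0 := sp_out (S := {i | a i / a i₀ ∈ W}) hj
  rw [hs', LinearMap.smul_apply, Module.End.one_apply] at h2 h3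
  have h4 : s = 0 := (smul_eq_zero.1 h3).resolve_right (b.ne_zero j)
  rw [h4, zero_smul] at h2
  exact b.ne_zero i₀ h2.symm

variable [IsAlgClosed K]

include h hs hF hFF hFF' in
/-- **Simplicity**, from few coincidences of ratios of eigenvalues. -/
theorem simple_of_grading (hFG : ∀ y ∈ G, F * y * F' ∈ G) (hFG' : ∀ y ∈ G, F' * y * F ∈ G)
    {W : Subgroup Kˣ} {i₀ : Fin n} {r : ℕ}
    (hr : ∀ j, a j / a i₀ ∉ W → ∀ z : End K V, F * z * F' = ((a j / a i₀ : Kˣ) : K) • z →
      rk z ≤ r) (hrr : r * r < finrank K V)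
    (hodd : ∀ H : Subgroup Kˣ, H ≤ W →
      (∀ k, Subgroup.closure {x | x ∈ H ∧ ∃ j, x = a j / a k} = H) →
      ∃ t : Kˣ, Odd (Nat.card {i // a i / t ∈ H}))
    {D : End K V} (hD : D ∈ G) (hD2 : D * D = 1) :
    G ≤ gn G D ∧ ∃ z ∈ G, z ≠ 0 ∧ rk z ≤ r := by
  -- elements of small rank
  have key : ∀ {J : Submodule K (End K V)}, IsIdl G J → (∀ y ∈ J, F * y * F' ∈ J) →
      (∃ D ∈ J, D * D = 1) →
      ∃ z ∈ J, z ≠ 0 ∧ (∃ β : Kˣ, F * z * F' = (β : K) • z) ∧ rk z ≤ r := by
    rintro J hJ hJF ⟨D, hD, hD2⟩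
    by_contra hcon
    refine parity h hs hF hFF hFF' hJ hJF hD hD2 (W := W)
      (zero_of_kill h hs hF hFF hFF' (hJ.le hD) hD2 hJ hJF W (b.ne_zero i₀) ?_) hodd
    intro z hz β hβ hzβ
    by_contra hzk
    obtain ⟨j, hj⟩ : ∃ j, b.repr (z (b i₀)) j ≠ 0 := by
      by_contra hcon
      push Not at hcon
      apply hzk
      rw [← b.repr.map_eq_zero_iff]
      exact Finsupp.ext hcon
    have h2 : β = a j / a i₀ := by rw [coord_ne hF hFF' hzβ hj, mul_div_cancel_right]
    refine hcon ⟨z, hz, ?_, ⟨β, hzβ⟩, hr j (h2 ▸ hβ) z (h2 ▸ hzβ)⟩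
    rintro rfl
    exact hzk rfl
  obtain ⟨z, hz, hz0, ⟨β, hFz⟩, hzr⟩ := key h.idl hFG ⟨D, hD, hD2⟩
  refine ⟨?_, z, hz, hz0, hzr⟩
  have hrk : ¬finrank K V ≤ rk z * rk z := fun h1 =>
    absurd (h1.trans (Nat.mul_le_mul hzr hzr)) (not_le.2 hrr)
  by_contra hgn
  obtain ⟨E, hE, hE2, hEz⟩ := not_comm_exists h hs hz hz0
  have hI := gn_idl h hE
  have hC := cen_idl h hI
  have hgnE : ¬G ≤ gn G E := by
    intro h0
    have hJ := gn_idl h hD
    rcases invol_dich h hs hJ hE hE2 with h1 | h1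
    · exact hgn (h0.trans (gn_le hJ h1))
    · have h2 : G ≤ cen G (gn G D) := h0.trans (gn_le (cen_idl h hJ) h1)
      have h3 : D = 0 := central_zero h hs hD hD2 hD fun z hz => ((h2 hz).2 D mem_gn).symm
      apply hz0
      rw [← mul_one z, ← hD2, h3, mul_zero, mul_zero]
  obtain ⟨D₁, hD₁, hD₁2⟩ := exists_invol_cen h hs hE hgnE
  have hF'z : F' * z * F = (β : K)⁻¹ • z := by
    calc F' * z * F = (β : K)⁻¹ • (F' * ((β : K) • z) * F) := by
          rw [mul_smul_comm, smul_mul_assoc, smul_smul, inv_mul_cancel₀ β.ne_zero, one_smul]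
    _ = (β : K)⁻¹ • ((F' * F) * z * (F' * F)) := by
          rw [← hFz]
          simp only [mul_assoc]
    _ = (β : K)⁻¹ • z := by rw [hFF', one_mul, mul_one]
  -- the conjugates of `E` are in the ideal generated by `E`
  have hEF : F * E * F' ∈ gn G E := by
    rcases invol_dich h hs hI (hFG E hE)
      (by rw [← conj_mul hFF', hE2, mul_one, hFF]) with h1 | h1
    · exact h1
    · exact absurd (conj_case h hs hFF hFF' hE hE2 hz hEz hFz h1) hrk
  have hEF' : F' * E * F ∈ gn G E := by
    rcases invol_dich h hs hI (hFG' E hE)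
      (by rw [← conj_mul hFF, hE2, mul_one, hFF']) with h1 | h1
    · exact h1
    · exact absurd (conj_case h hs hFF' hFF hE hE2 hz hEz hF'z h1) hrk
  have hFI' : ∀ y ∈ gn G E, F' * y * F ∈ gn G E := fun y hy =>
    gn_le hI hEF' (conj_gn hFF' hFF hFG' hFG hy)
  have hFC : ∀ y ∈ cen G (gn G E), F * y * F' ∈ cen G (gn G E) := by
    rintro y ⟨hy, hyI⟩
    refine ⟨hFG y hy, fun w hw => ?_⟩
    have h2 := hyI _ (hFI' w hw)
    calc F * y * F' * w = F * (y * (F' * w * F)) * F' := by
          calc F * y * F' * w = F * y * F' * w * 1 := by rw [mul_one]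
          _ = F * y * F' * w * (F * F') := by rw [hFF]
          _ = _ := by noncomm_ring
    _ = F * ((F' * w * F) * y) * F' := by rw [h2]
    _ = (F * F') * w * (F * y * F') := by noncomm_ring
    _ = w * (F * y * F') := by rw [hFF, one_mul]
  obtain ⟨z', hz', hz'0, -, hz'r⟩ := key hC hFC ⟨D₁, hD₁, hD₁2⟩
  obtain ⟨E', hE', hE'2, hE'z⟩ := not_comm_exists h hs hz'.1 hz'0
  have hE'C : E' ∈ cen G (gn G E) := by
    rcases invol_dich h hs hI hE' hE'2 with h1 | h1
    · exact absurd (hz'.2 E' h1).symm hE'z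
    · exact h1
  obtain ⟨A, hA, hu⟩ := exists_up hEz
  obtain ⟨B, hB, hu'⟩ := exists_up hE'z
  have hAG : A ∈ G := by
    rcases hA with rfl | rfl
    · exact hE
    · exact G.neg_mem hE
  have hA2 : A * A = 1 := by
    rcases hA with rfl | rfl
    · exact hE2
    · rw [neg_mul_neg, hE2]
  have hAgn : gn G A = gn G E := by
    rcases hA with rfl | rfl
    · rfl
    · exact gn_neg
  have hBC : B ∈ cen G (gn G A) := by
    rw [hAgn]
    rcases hB with rfl | rfl
    · exact hE'C
    · exact Submodule.neg_mem _ hE'C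
  have hB2 : B * B = 1 := by
    rcases hB with rfl | rfl
    · exact hE'2
    · rw [neg_mul_neg, hE'2]
  have h1 := no_two h hs hAG hA2 (up_mem h hAG hA2 hz) hu hBC hB2 (up_mem h hBC.1 hB2 hz'.1) hu'
  have h2 : rk ((1 + A) * z * (1 - A)) * rk ((1 + B) * z' * (1 - B)) ≤ r * r :=
    Nat.mul_le_mul ((rk_conj_le _ _ _).trans hzr) ((rk_conj_le _ _ _).trans hz'r)
  exact absurd (h1.trans h2) (not_le.2 hrr)

end ideals

section rank

variable {n : ℕ} {b : Basis (Fin n) K V} {a : Fin n → Kˣ} {F F' : End K V}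
  (hF : ∀ i, F (b i) = (a i : K) • b i) (hFF' : F' * F = 1)

/-- The number of coincidences: the sum, over the eigenvalues, of the minimum of the multiplicities of
`c` and of `c ρ`. -/
def coinc {K : Type} [Field K] {n : ℕ} (a : Fin n → Kˣ) (ρ : Kˣ) : ℕ :=
  ∑ᶠ c : Kˣ, min (Nat.card {i // a i = c}) (Nat.card {i // a i = c * ρ})

theorem coinc_eq (a : Fin n → Kˣ) (ρ : Kˣ) [DecidableEq Kˣ] : coinc a ρ =
    ∑ c ∈ Finset.univ.image a, min (Nat.card {i // a i = c}) (Nat.card {i // a i = c * ρ}) := by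
  unfold coinc
  refine finsum_eq_sum_of_support_subset _ ?_
  intro c hc
  rw [Function.mem_support] at hc
  rw [Finset.mem_coe, Finset.mem_image]
  by_contra hcon
  push Not at hcon
  apply hc
  have : IsEmpty {i // a i = c} := ⟨fun i => hcon i.1 (Finset.mem_univ _) i.2⟩
  rw [Nat.card_of_isEmpty, Nat.zero_min]

theorem finrank_sup_le {ι : Type} (S : Finset ι) (f : ι → Submodule K V) (g : ι → ℕ)
    (h : ∀ c ∈ S, finrank K (f c) ≤ g c) :
    finrank K (⨆ c ∈ S, f c : Submodule K V) ≤ ∑ c ∈ S, g c := by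
  classical
  induction S using Finset.induction_on with
  | empty => simp
  | insert c S hc ih =>
    rw [Finset.iSup_insert, Finset.sum_insert hc]
    refine (Submodule.finrank_add_le_finrank_add_finrank _ _).trans ?_
    exact Nat.add_le_add (h c (Finset.mem_insert_self _ _))
      (ih fun c' hc' => h c' (Finset.mem_insert_of_mem hc'))

include hF hFF' in
/-- The rank of an operator of given weight is at most the number of coincidences. -/
theorem rk_le_coinc {z : End K V} {ρ : Kˣ} (hz : F * z * F' = (ρ : K) • z) : rk z ≤ coinc a ρ := by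
  classical
  rw [coinc_eq]
  have hle : LinearMap.range z ≤ ⨆ c ∈ Finset.univ.image a,
      (LinearMap.range (sp b {i | a i = c})).map z := by
    rintro _ ⟨v, rfl⟩
    rw [← b.sum_repr v, map_sum]
    refine Submodule.sum_mem _ fun i _ => ?_
    rw [map_smul]
    refine Submodule.smul_mem _ _ ?_
    refine Submodule.mem_iSup_of_mem (a i) (Submodule.mem_iSup_of_mem
      (Finset.mem_image_of_mem a (Finset.mem_univ i)) ?_)
    exact ⟨b i, ⟨b i, sp_in (S := {j | a j = a i}) rfl⟩, rfl⟩
  refine (Submodule.finrank_mono hle).trans (finrank_sup_le _ _ _ fun c _ => ?_)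
  refine le_min ?_ ?_
  · refine (Submodule.finrank_map_le _ _).trans ?_
    have h1 := sp_rk (b := b) {i | a i = c}
    exact h1.le
  · have h1 := sp_rk (b := b) {i | a i = c * ρ}
    refine le_trans (Submodule.finrank_mono ?_) h1.le
    rintro _ ⟨_, ⟨v, rfl⟩, rfl⟩
    rw [← b.sum_repr v, map_sum, map_sum]
    refine Submodule.sum_mem _ fun i _ => ?_
    rw [map_smul, map_smul]
    refine Submodule.smul_mem _ _ ?_
    by_cases hi : a i = c
    · rw [sp_in (S := {i | a i = c}) hi, ← b.sum_repr (z (b i))]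
      refine Submodule.sum_mem _ fun j _ => ?_
      by_cases hne : b.repr (z (b i)) j = 0
      · rw [hne, zero_smul]
        exact Submodule.zero_mem _
      · refine Submodule.smul_mem _ _ ⟨b j, sp_in (S := {i | a i = c * ρ}) ?_⟩
        change a j = c * ρ
        rw [coord_ne hF hFF' hz hne, hi, mul_comm]
    · rw [sp_out (S := {i | a i = c}) hi, map_zero]
      exact Submodule.zero_mem _

end rank

section final

variable {ω : V →ₗ[K] V →ₗ[K] K} {𝔥 : Submodule K (End K V)}
  (hbr : ∀ X ∈ 𝔥, ∀ Y ∈ 𝔥, X * Y - Y * X ∈ 𝔥)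
  (hsp : ∀ y ∈ 𝔥, ∀ a b, ω (y a) b + ω a (y b) = 0)
  (hirr : ∀ W : Submodule K V, (∀ X ∈ 𝔥, X * X = (1 / 4 : K) • 1 → ∀ u ∈ W, X u ∈ W) →
    W = ⊥ ∨ W = ⊤)
  (halt : ∀ v, ω v v = 0) (hndl : ∀ u, (∀ v, ω u v = 0) → u = 0)
  (hndr : ∀ w, (∀ v, ω v w = 0) → w = 0) {n : ℕ} {b : Basis (Fin n) K V} {a : Fin n → Kˣ}
  {F F' : End K V} (hF : ∀ i, F (b i) = (a i : K) • b i) (hFF : F * F' = 1)
  (hFF' : F' * F = 1)

include hbr hsp hirr halt hndl hndr hF hFF hFF' in
/-- **Rank one elements** from few coincidences of ratios of eigenvalues. -/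
theorem rank_one_of_grading [IsAlgClosed K] (hFG : ∀ y ∈ 𝔥, F * y * F' ∈ 𝔥)
    (hFG' : ∀ y ∈ 𝔥, F' * y * F ∈ 𝔥) {W : Subgroup Kˣ} {i₀ : Fin n} {r : ℕ}
    (hr : ∀ j, a j / a i₀ ∉ W → coinc a (a j / a i₀) ≤ r) (hr4 : 4 * r < n)
    (hodd : (¬4 ∣ n ∧ ∃ j, a j / a i₀ ∉ W) ∨ (r * r < n ∧ ∀ H : Subgroup Kˣ, H ≤ W →
      (∀ k, Subgroup.closure {x | x ∈ H ∧ ∃ j, x = a j / a k} = H) →
      ∃ t : Kˣ, Odd (Nat.card {i // a i / t ∈ H})))
    {D : End K V} (hD : D ∈ 𝔥) (hD2 : D * D = 1) : ∃ e ∈ 𝔥, rk e = 1 := by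
  have h := setup hbr hsp hirr hndl hndr
  have hs := scal hirr
  have hn : finrank K V = n := by rw [finrank_eq_card_basis b, Fintype.card_fin]
  have hr' : ∀ j, a j / a i₀ ∉ W → ∀ z : End K V, F * z * F' = ((a j / a i₀ : Kˣ) : K) • z →
      rk z ≤ r := fun j hj z hz => (rk_le_coinc hF hFF' hz).trans (hr j hj)
  rcases hodd with ⟨h4, hne⟩ | ⟨hrr, hodd⟩
  · obtain ⟨z, hz, hz0, hzr⟩ := exists_small_of_grading h hs hF hFF hFF' hFG hD hD2 hr' hne
    exact exists_rank_one_small hbr hsp hirr halt hndl hndr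
      (fun D hD hD2 => simple_of_four h hs (by rw [hn]; exact h4) hD hD2) hz hz0
      (Or.inl (by rw [hn]; exact (Nat.mul_le_mul_left 4 hzr).trans_lt hr4))
  · have key := fun (D : End K V) (hD : D ∈ 𝔥) (hD2 : D * D = 1) =>
      simple_of_grading h hs hF hFF hFF' hFG hFG' hr' (hn ▸ hrr) hodd hD hD2
    obtain ⟨-, z, hz, hz0, hzr⟩ := key D hD hD2
    exact exists_rank_one_small hbr hsp hirr halt hndl hndr
      (fun D hD hD2 => (key D hD hD2).1) hz hz0
      (Or.inl (by rw [hn]; exact (Nat.mul_le_mul_left 4 hzr).trans_lt hr4))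

end final

end

end Pool.Agent.Y126.JP
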