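import Mathlib
import Pool.Agent.Y126.JP.Grade
import Pool.Agent.Y126.JP.Glob

/-!
# Frobenius elements with few coincidences between ratios of eigenvalues
-/

set_option linter.unusedSectionVars false
set_option linter.unusedSimpArgs false

namespace Pool.Agent.Y126.JP

open Module Pool.Agent.H204R3.SP Pool.Agent.H204R3.GP Pool.Agent.W522.U Pool.Agent.W529.Ta
open Pool.Agent.W528.Odd Pool.Agent.Y126.OT Pool.Agent.TH118.CR Pool.Agent.Y126.Toric
open Pool.Agent.W528.Tor (AltDual)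

noncomputable section

variable {K : Type} [Field K] [CharZero K] [IsAlgClosed K] {X : Type} [AddCommGroup X] [Module K X]
  [FiniteDimensional K X] {Γ : Type} [Group Γ] {R : Representation K Γ X} {χ : Γ →* K}
  (ω : X →ₗ[K] X →ₗ[K] K) (hnd : ∀ u, (∀ v, ω u v = 0) → u = 0)
  (hωR : ∀ g u v, ω (R g u) (R g v) = χ g * ω u v) (hss : HasProj R) {U : Submodule K X}
  (hU : SI R U)

include hnd hωR hss hU in
/-- From an element of rank one on a symplectic subspace to a global one. -/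
theorem one_of_res (halt : AltDual R χ U) (hP : WeakHodgeGenerate R χ)
    (hone : ∃ e ∈ resL R χ U, rk e = 1) :
    ∃ e ∈ lieT R χ, e * e = 0 ∧ finrank K (U.map e) = 1 := by
  have hdim : 2 ≤ finrank K U := altDual_two_le halt
  obtain ⟨Δ₁, hΔ₁, hUΔ₁⟩ := id hU.2.1
  obtain ⟨Δ₂, hΔ₂, B, hB0, hBalt, hB⟩ := halt
  obtain ⟨Δ, hΔd⟩ : ∃ Δ, Δ = Δ₁ ⊓ Δ₂ := ⟨_, rfl⟩
  have hΔ : Δ.FiniteIndex := by rw [hΔd]; infer_instance
  have hUΔ : ∀ g ∈ Δ, ∀ u ∈ U, R g u ∈ U := fun g hg => hUΔ₁ g (by rw [hΔd] at hg; exact hg.1)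
  have hBΔ : ∀ g ∈ Δ, ∀ u ∈ U, ∀ v ∈ U, B (R g u) (R g v) = χ g * B u v :=
    fun g hg => hB g (by rw [hΔd] at hg; exact hg.2)
  -- the form on `U`
  obtain ⟨om, hom⟩ : ∃ om : U →ₗ[K] U →ₗ[K] K, om = B.compl₁₂ U.subtype U.subtype := ⟨_, rfl⟩
  have hom' : ∀ u v : U, om u v = B u v := fun u v => by rw [hom]; rfl
  have halt' : ∀ v, om v v = 0 := fun v => by rw [hom']; exact hBalt v v.2
  have hndl : ∀ u, (∀ v, om u v = 0) → u = 0 := by
    intro u hu
    apply Subtype.ext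
    exact du_left hU hU.2.1 hΔ hB0 hBΔ u u.2 (fun v hv => by
      have := hu ⟨v, hv⟩
      rwa [hom'] at this)
  have hanti := alt_anti halt'
  have hndr : ∀ u, (∀ v, om v u = 0) → u = 0 := fun u hu => hndl u fun v => by
    rw [hanti, hu, neg_zero]
  have hsim : ∀ (g : Δ) u v, om (resR R Δ U hUΔ g u) (resR R Δ U hUΔ g v) =
      (χ.comp Δ.subtype) g * om u v := by
    intro g u v
    rw [hom', hom']
    exact hBΔ g.1 g.2 u u.2 v v.2
  have hsp : ∀ Y ∈ resL R χ U, ∀ u w, om (Y u) w + om u (Y w) = 0 := by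
    rintro Y ⟨y, hy, hYy⟩ u w
    rw [hom', hom', hYy, hYy]
    exact lieT_skew ω hnd hωR hss hU.2.1 hΔ B hBΔ hy u u.2 w w.2
  obtain ⟨e, he, hr⟩ := hone
  have hall : ∀ u v, SS om u v ∈ resL R χ U :=
    all_of_rank_one (resR R Δ U hUΔ) (χ.comp Δ.subtype) (sIrr_res hU Δ hΔ hUΔ) resL_br
        (resL_conj Δ hUΔ) om halt' hndr hsim hsp he hr
  obtain ⟨v, hv⟩ : ∃ v : U, v ≠ 0 := by
    by_contra hcon
    push Not at hcon
    have h1 : finrank K U = 0 := finrank_zero_iff_forall_zero.2 hcon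
    omega
  obtain ⟨w', hw'⟩ : ∃ w', om v w' ≠ 0 := by
    by_contra hcon
    push Not at hcon
    exact hv (hndl v hcon)
  have h1 : LinearMap.range (SS om v v) = Submodule.span K {v} := by
    apply le_antisymm
    · rintro _ ⟨u, rfl⟩
      rw [SS_apply]
      exact Submodule.add_mem _ (Submodule.smul_mem _ _ (Submodule.mem_span_singleton_self v))
        (Submodule.smul_mem _ _ (Submodule.mem_span_singleton_self v))
    · rw [Submodule.span_singleton_le_iff_mem]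
      refine ⟨(2 * om v w')⁻¹ • w', ?_⟩
      rw [map_smul, SS_apply, ← add_smul, smul_smul]
      have h2 : (2 * om v w')⁻¹ * (om v w' + om v w') = 1 := by
        rw [← two_mul]
        exact inv_mul_cancel₀ (mul_ne_zero two_ne_zero hw')
      rw [h2, one_smul]
  -- a weak Hodge element that does not commute with it
  obtain ⟨x, hx, hxx, Y, hYx, hYS⟩ : ∃ x ∈ lieT R χ, x * x = (1 / 4 : K) • 1 ∧
      ∃ Y : Module.End K U, (∀ u : U, ((Y u : U) : X) = x u) ∧
        Y * SS om v v ≠ SS om v v * Y := by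
    by_contra hcon
    push Not at hcon
    have h3 := irr_weak ω hnd hωR hss hP hU Δ hΔ hUΔ (LinearMap.range (SS om v v)) (by
      rintro Y ⟨x₀, hx₀, hxx, hYx⟩ _ ⟨u, rfl⟩
      have h4 := hcon x₀ hx₀ hxx Y hYx
      rw [← Module.End.mul_apply, h4]
      exact ⟨Y u, rfl⟩)
    rw [h1] at h3
    rcases h3 with h3 | h3
    · exact hv ((Submodule.span_singleton_eq_bot).1 h3)
    · have h4 := finrank_span_singleton (K := K) hv
      rw [h3, finrank_top] at h4
      omega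
  obtain ⟨y, hy, hyS⟩ := hall v v
  have hbr : ∀ A ∈ lieT R χ, ∀ B ∈ lieT R χ, A * B - B * A ∈ lieT R χ :=
    fun _ h _ h' => lieT_bracket R χ h h'
  have hsq : ∀ p q : Module.End K X, q * p = 0 → p * y * q * (p * y * q) = 0 := by
    intro p q hpq
    calc p * y * q * (p * y * q) = p * y * (q * p) * y * q := by noncomm_ring
    _ = 0 := by rw [hpq, mul_zero, zero_mul, zero_mul]
  obtain ⟨N, hN, hN2, hN0⟩ : ∃ N ∈ lieT R χ, N * N = 0 ∧ U.map N ≠ ⊥ := by
    by_contra hcon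
    push Not at hcon
    have h3 := hcon _ (yp_mem hxx hbr hx hy) (hsq _ _ (e0_mul_e1 hxx))
    have h4 := hcon _ (ym_mem hxx hbr hx hy) (hsq _ _ (e1_mul_e0 hxx))
    apply hYS
    refine LinearMap.ext fun u => Subtype.ext ?_
    rw [Module.End.mul_apply, Module.End.mul_apply, hYx, hyS, hyS, hYx]
    have h5 : yp x y u = 0 := by
      have : yp x y u ∈ U.map (yp x y) := Submodule.mem_map_of_mem u.2
      rwa [h3, Submodule.mem_bot] at this
    have h6 : ym x y u = 0 := by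
      have : ym x y u ∈ U.map (ym x y) := Submodule.mem_map_of_mem u.2
      rwa [h4, Submodule.mem_bot] at this
    have h7 : (x * y - y * x) u = (yp x y - ym x y) u := LinearMap.congr_fun (br_eq hxx) _
    rw [LinearMap.sub_apply, LinearMap.sub_apply, h5, h6, sub_zero, sub_eq_zero] at h7
    exact h7
  refine one_of_rank_one ω hnd hωR hss hU hN hN2 hN0 (hall v v)
    (Pool.Agent.W528.Tor.SS_sq_zero om halt' (halt' v)) ?_
  rw [rk, h1]
  exact finrank_span_singleton hv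

include hnd hωR hss hU in
/-- **Few coincidences between ratios of eigenvalues.** -/
theorem one_of_grading (halt : AltDual R χ U) (hP : WeakHodgeGenerate R χ) {F : Γ} {n : ℕ}
    {b : Basis (Fin n) K U} {a : Fin n → Kˣ} (hF : ∀ i, R F (b i : X) = (a i : K) • (b i : X))
    {W : Subgroup Kˣ} {i₀ : Fin n} {r : ℕ} (hr : ∀ j, a j / a i₀ ∉ W → coinc a (a j / a i₀) ≤ r)
    (hr4 : 4 * r < n)
    (hodd : (¬4 ∣ n ∧ ∃ j, a j / a i₀ ∉ W) ∨ (r * r < n ∧ ∀ H : Subgroup Kˣ, H ≤ W →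
      (∀ k, Subgroup.closure {x | x ∈ H ∧ ∃ j, x = a j / a k} = H) →
      ∃ t : Kˣ, Odd (Nat.card {i // a i / t ∈ H}))) :
    ∃ e ∈ lieT R χ, e * e = 0 ∧ finrank K (U.map e) = 1 := by
  refine one_of_res ω hnd hωR hss hU halt hP ?_
  have hdim : 2 ≤ finrank K U := altDual_two_le halt
  obtain ⟨Δ₁, hΔ₁, hUΔ₁⟩ := id hU.2.1
  obtain ⟨Δ₂, hΔ₂, B, hB0, hBalt, hB⟩ := halt
  obtain ⟨Δ, hΔd⟩ : ∃ Δ, Δ = Δ₁ ⊓ Δ₂ := ⟨_, rfl⟩
  have hΔ : Δ.FiniteIndex := by rw [hΔd]; infer_instance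
  have hUΔ : ∀ g ∈ Δ, ∀ u ∈ U, R g u ∈ U := fun g hg => hUΔ₁ g (by rw [hΔd] at hg; exact hg.1)
  have hBΔ : ∀ g ∈ Δ, ∀ u ∈ U, ∀ v ∈ U, B (R g u) (R g v) = χ g * B u v :=
    fun g hg => hB g (by rw [hΔd] at hg; exact hg.2)
  -- the form on `U`
  obtain ⟨om, hom⟩ : ∃ om : U →ₗ[K] U →ₗ[K] K, om = B.compl₁₂ U.subtype U.subtype := ⟨_, rfl⟩
  have hom' : ∀ u v : U, om u v = B u v := fun u v => by rw [hom]; rfl
  have halt' : ∀ v, om v v = 0 := fun v => by rw [hom']; exact hBalt v v.2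
  have hndl : ∀ u, (∀ v, om u v = 0) → u = 0 := by
    intro u hu
    apply Subtype.ext
    exact du_left hU hU.2.1 hΔ hB0 hBΔ u u.2 (fun v hv => by
      have := hu ⟨v, hv⟩
      rwa [hom'] at this)
  have hanti := alt_anti halt'
  have hndr : ∀ u, (∀ v, om v u = 0) → u = 0 := fun u hu => hndl u fun v => by
    rw [hanti, hu, neg_zero]
  have hsp : ∀ Y ∈ resL R χ U, ∀ u w, om (Y u) w + om u (Y w) = 0 := by
    rintro Y ⟨y, hy, hYy⟩ u w
    rw [hom', hom', hYy, hYy]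
    exact lieT_skew ω hnd hωR hss hU.2.1 hΔ B hBΔ hy u u.2 w w.2
  have hirr : ∀ W : Submodule K U, (∀ Y ∈ resL R χ U, Y * Y = (1 / 4 : K) • 1 →
      ∀ u ∈ W, Y u ∈ W) → W = ⊥ ∨ W = ⊤ := fun W hW =>
    irr_weak ω hnd hωR hss hP hU Δ hΔ hUΔ W (by
      rintro Y ⟨x₀, hx₀, hxx, hYx⟩
      exact hW Y ⟨x₀, hx₀, hYx⟩ (sq_res hYx _ hxx))
  -- the Frobenius element
  have hinv : R F⁻¹ * R F = 1 := by rw [← map_mul, inv_mul_cancel, map_one]
  have hinv' : R F * R F⁻¹ = 1 := by rw [← map_mul, mul_inv_cancel, map_one]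
  have hsum : ∀ u : U, (u : X) = ∑ i, b.repr u i • (b i : X) := by
    intro u
    conv_lhs => rw [← b.sum_repr u]
    rw [Submodule.coe_sum]
    rfl
  have hFU : ∀ u ∈ U, R F u ∈ U := by
    intro u hu
    have h1 := hsum ⟨u, hu⟩
    change u = _ at h1
    rw [h1, map_sum]
    refine U.sum_mem fun i _ => ?_
    rw [map_smul, hF]
    exact U.smul_mem _ (U.smul_mem _ (b i).2)
  have hF' : ∀ i, R F⁻¹ (b i : X) = (a i : K)⁻¹ • (b i : X) := by
    intro i
    have h1 : (b i : X) = (a i : K)⁻¹ • R F (b i : X) := by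
      rw [hF, smul_smul, inv_mul_cancel₀ (a i).ne_zero, one_smul]
    conv_lhs => rw [h1]
    rw [map_smul]
    congr 1
    exact LinearMap.congr_fun hinv _
  have hFU' : ∀ u ∈ U, R F⁻¹ u ∈ U := by
    intro u hu
    have h1 := hsum ⟨u, hu⟩
    change u = _ at h1
    rw [h1, map_sum]
    refine U.sum_mem fun i _ => ?_
    rw [map_smul, hF']
    exact U.smul_mem _ (U.smul_mem _ (b i).2)
  obtain ⟨FU, hFUd⟩ : ∃ FU : Module.End K U, FU = (R F).restrict hFU := ⟨_, rfl⟩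
  obtain ⟨FU', hFUd'⟩ : ∃ FU' : Module.End K U, FU' = (R F⁻¹).restrict hFU' := ⟨_, rfl⟩
  have hFx : ∀ u : U, ((FU u : U) : X) = R F u := fun u => by rw [hFUd]; rfl
  have hFx' : ∀ u : U, ((FU' u : U) : X) = R F⁻¹ u := fun u => by rw [hFUd']; rfl
  have hFF : FU * FU' = 1 := LinearMap.ext fun u => Subtype.ext (by
    rw [Module.End.mul_apply, hFx, hFx']
    exact LinearMap.congr_fun hinv' u)
  have hFF' : FU' * FU = 1 := LinearMap.ext fun u => Subtype.ext (by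
    rw [Module.End.mul_apply, hFx', hFx]
    exact LinearMap.congr_fun hinv u)
  have hFG : ∀ Y ∈ resL R χ U, FU * Y * FU' ∈ resL R χ U := by
    rintro Y ⟨x, hx, hY⟩
    refine ⟨R F * x * R F⁻¹, lieT_conj R χ F hx, fun u => ?_⟩
    rw [Module.End.mul_apply, Module.End.mul_apply, hFx, hY, hFx']
    rfl
  have hFG' : ∀ Y ∈ resL R χ U, FU' * Y * FU ∈ resL R χ U := by
    rintro Y ⟨x, hx, hY⟩
    refine ⟨R F⁻¹ * x * R F⁻¹⁻¹, lieT_conj R χ F⁻¹ hx, fun u => ?_⟩
    rw [Module.End.mul_apply, Module.End.mul_apply, hFx', hY, hFx, inv_inv]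
    rfl
  have hFb : ∀ i, FU (b i) = (a i : K) • b i := fun i => Subtype.ext (by
    rw [hFx, hF]
    rfl)
  -- an involution
  obtain ⟨D, hD, hD2⟩ : ∃ D ∈ resL R χ U, D * D = 1 := by
    by_contra hcon
    push Not at hcon
    have h1 : ∀ Y ∈ resL R χ U, Y * Y ≠ (1 / 4 : K) • 1 := by
      intro Y hY hYY
      refine hcon ((2 : K) • Y) ((resL R χ U).smul_mem _ hY) ?_
      rw [smul_mul_assoc, mul_smul_comm, hYY, smul_smul, smul_smul]
      norm_num
    have h2 := hirr (Submodule.span K {b i₀}) fun Y hY hYY => absurd hYY (h1 Y hY)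
    rcases h2 with h2 | h2
    · exact b.ne_zero i₀ ((Submodule.span_singleton_eq_bot).1 h2)
    · have h4 := finrank_span_singleton (K := K) (b.ne_zero i₀)
      rw [h2, finrank_top] at h4
      omega
  exact rank_one_of_grading resL_br hsp hirr halt' hndl hndr hFb hFF hFF' hFG hFG' hr hr4 hodd
    hD hD2

end

end Pool.Agent.Y126.JP
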